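import Pool.Agent.Lib_MP_f1a94e_ap.CertA

/-!
# MP_f1a94e_nt: certificates for a set of classes, norms of either parity
-/

set_option autoImplicit false

namespace Pool.Agent.OmEv

open Finset ArithmeticFunction Pool.Agent.OmAP

/-- Certificate for a set `A` of classes modulo `q`, norms of either parity. -/
def IsCertB (q : ℕ) (A : Set (ZMod q)) (V : Finset (ℤ × ℤ)) : Prop :=
  (∀ u ∈ V, nm u ≠ 0 ∧ u.2 ≠ 0) ∧
  ∀ X : ℤ × ℤ → ZMod q, ∃ u ∈ V, ∃ v ∈ V, dt u v ≠ 0 ∧ dt u v ∣ dp u v ∧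
    X u + X v - 2 * (om (dt u v) : ZMod q) ∈ A

/-- there is a certificate -/
def CertB (q : ℕ) (A : Set (ZMod q)) : Prop := ∃ V : Finset (ℤ × ℤ), IsCertB q A V

theorem nm_lin_ne (t z w : ℤ × ℤ) (ht : nm t ≠ 0) (hdet : dt z w = 1) : nm (lin t z w) ≠ 0 := by
  intro h
  apply ht
  obtain ⟨t1, t2⟩ := t
  obtain ⟨z1, z2⟩ := z
  obtain ⟨w1, w2⟩ := w
  simp only [nm, lin, dt] at h hdet ⊢
  have h1 : t1 * z1 + t2 * w1 = 0 := by
    have := sq_nonneg (t1 * z1 + t2 * w1)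
    have := sq_nonneg (t1 * z2 + t2 * w2)
    exact pow_eq_zero_iff (two_ne_zero) |>.mp (by linarith)
  have h2 : t1 * z2 + t2 * w2 = 0 := by
    have := sq_nonneg (t1 * z1 + t2 * w1)
    have := sq_nonneg (t1 * z2 + t2 * w2)
    exact pow_eq_zero_iff (two_ne_zero) |>.mp (by linarith)
  have h3 : t1 = 0 := by linear_combination w2 * h1 - w1 * h2 - t1 * hdet
  have h4 : t2 = 0 := by linear_combination z1 * h2 - z2 * h1 - t2 * hdet
  rw [h3, h4]
  ring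

theorem transferB {q : ℕ} {A : Set (ZMod q)} {V : Finset (ℤ × ℤ)} (hV : IsCertB q A V)
    (L : ℤ) (hL : ∀ u ∈ V, ∀ v ∈ V, dt u v ≠ 0 → dt u v ∣ L) (z w : ℤ × ℤ)
    (hdet : dt z w = 1) (hz1 : L ∣ z.1 - 1) (hz2 : L ∣ z.2) (hw1 : L ∣ w.1) (hw2 : L ∣ w.2 - 1) :
    ∃ u ∈ V, ∃ v ∈ V, ∃ n : ℤ, dt u v ≠ 0 ∧ dt u v ∣ dp u v ∧
      dp (lin u z w) (lin v z w) = dt u v * n ∧
      (om (n ^ 2 + 1) : ZMod q) ∈ A ∧
      om (n ^ 2 + 1) + 2 * om (dt u v) = om (nm (lin u z w)) + om (nm (lin v z w)) ∧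
      om ((dt u v) ^ 2 * (n ^ 2 + 1)) = om (nm (lin u z w)) + om (nm (lin v z w)) ∧
      nm (lin u z w) * nm (lin v z w) = (dt u v) ^ 2 * (n ^ 2 + 1) ∧
      n ^ 2 + 1 ≤ nm (lin u z w) * nm (lin v z w) := by
  obtain ⟨hnz, hX⟩ := hV
  obtain ⟨u, hu, v, hv, hD, hdvd, hsum⟩ := hX fun u => (om (nm (lin u z w)) : ZMod q)
  have h1 : dt u v ∣ dp (lin u z w) (lin v z w) := by
    have h2 : dt u v ∣ dp (lin u z w) (lin v z w) - dp u v :=
      (hL u hu v hv hD).trans (dp_lin_sub L u v z w hz1 hz2 hw1 hw2)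
    have h3 := dvd_add h2 hdvd
    rwa [sub_add_cancel] at h3
  obtain ⟨n, hn⟩ := h1
  have hmain : nm (lin u z w) * nm (lin v z w) = (dt u v) ^ 2 * (n ^ 2 + 1) := by
    have h4 := dp_sq_add_dt_sq (lin u z w) (lin v z w)
    rw [dt_lin, hdet, mul_one, hn] at h4
    linear_combination -h4
  have hpos : (0 : ℤ) < n ^ 2 + 1 := by positivity
  have hU0 : nm (lin u z w) ≠ 0 := nm_lin_ne u z w (hnz u hu).1 hdet
  have hW0 : nm (lin v z w) ≠ 0 := nm_lin_ne v z w (hnz v hv).1 hdet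
  have hom : om (nm (lin u z w)) + om (nm (lin v z w)) = om ((dt u v) ^ 2 * (n ^ 2 + 1)) := by
    rw [← om_mul hU0 hW0, hmain]
  have hom2 : om ((dt u v) ^ 2 * (n ^ 2 + 1)) = 2 * om (dt u v) + om (n ^ 2 + 1) := by
    rw [om_mul (pow_ne_zero 2 hD) hpos.ne', om_sq hD]
  refine ⟨u, hu, v, hv, n, hD, hdvd, hn, ?_, ?_, hom.symm, hmain, ?_⟩
  · have h6 : ((om (nm (lin u z w)) + om (nm (lin v z w)) : ℕ) : ZMod q) =
        ((2 * om (dt u v) + om (n ^ 2 + 1) : ℕ) : ZMod q) := by rw [hom, hom2]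
    push_cast at h6
    have h7 : (om (n ^ 2 + 1) : ZMod q) = (om (nm (lin u z w)) : ZMod q) +
        (om (nm (lin v z w)) : ZMod q) - 2 * (om (dt u v) : ZMod q) := by
      linear_combination -h6
    rw [h7]
    exact hsum
  · rw [hom, hom2]; ring
  · rw [hmain]
    have h7 : 1 ≤ (dt u v) ^ 2 := by
      have h8 : 0 < (dt u v) ^ 2 := by positivity
      omega
    nlinarith

theorem rough_partB (u U : ℤ × ℤ) (hu0 : nm u ≠ 0) (L P F Y : ℕ) (hL : L = F * P ^ 2)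
    (hu : nm u ∣ (P : ℤ))
    (hU : (L : ℤ) ∣ nm U - nm u) (hU0 : nm U ≠ 0)
    (hrough : ∀ p : ℕ, p.Prime → p ≤ Y → ¬ p ∣ L → ¬ (p : ℤ) ∣ nm U) :
    ∃ r : ℕ, (nm U).natAbs = (nm u).natAbs * r ∧ r ≠ 0 ∧ ∀ p, p.Prime → p ∣ r → Y < p := by
  obtain ⟨e, he⟩ := hu
  obtain ⟨k, hk⟩ := hU
  -- nm U = nm u * (1 + F * P * e * k)
  have h1 : nm U = nm u * (1 + F * P * e * k) := by
    have h2 : (L : ℤ) = F * P * (nm u * e) := by rw [hL]; push_cast; rw [← he]; ring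
    rw [h2] at hk
    linear_combination hk
  refine ⟨(1 + F * P * e * k : ℤ).natAbs, by rw [h1, Int.natAbs_mul], ?_, ?_⟩
  · intro h0
    rw [Int.natAbs_eq_zero] at h0
    exact hU0 (by rw [h1, h0, mul_zero])
  · intro p hp hpr
    have hpr' : (p : ℤ) ∣ 1 + F * P * e * k := Int.natCast_dvd.mpr hpr
    by_contra hle
    push Not at hle
    by_cases hpL : p ∣ L
    · have h3 : p ∣ F ∨ p ∣ P := by
        rw [hL] at hpL
        rcases hp.dvd_mul.mp hpL with h | h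
        · exact Or.inl h
        · exact Or.inr (hp.dvd_of_dvd_pow h)
      have h4 : (p : ℤ) ∣ F * P * e * k := by
        have h5 : (p : ℤ) ∣ F * P := by
          rcases h3 with h | h
          · exact Dvd.dvd.mul_right (by exact_mod_cast h) _
          · exact Dvd.dvd.mul_left (by exact_mod_cast h) _
        exact (h5.mul_right _).mul_right _
      have h6 : (p : ℤ) ∣ 1 := (dvd_add_left h4).mp hpr'
      have h7 : p ∣ 1 := by exact_mod_cast h6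
      exact hp.one_lt.ne' (Nat.dvd_one.mp h7)
    · exact hrough p hp hle hpL (by rw [h1]; exact hpr'.mul_left _)

end Pool.Agent.OmEv
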