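import Pool.Agent.Lib_MP_f1a94e_kl.Kl10
import Pool.Agent.Lib_MP_f1a94e_ev.CertB

/-!
# MP_f1a94e_nt: almost primes from a certificate, norms of either parity
-/

set_option autoImplicit false

namespace Pool.Agent.OmEv

open Finset ArithmeticFunction Pool.Agent.OmAP Pool.Agent.OmKl

theorem one_baseB {q : ℕ} {A : Set (ZMod q)} {V : Finset (ℤ × ℤ)} (hV : IsCertB q A V)
    (F P L : ℕ) (hL : L = F * P ^ 2) (hP : 0 < P)
    (hP1 : ∀ u ∈ V, nm u ∣ (P : ℤ)) (hP3 : ∀ u ∈ V, ∀ v ∈ V, dt u v ≠ 0 → dt u v ∣ (P : ℤ))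
    (z w : ℤ × ℤ) (hdet : dt z w = 1) (hz1 : (L : ℤ) ∣ z.1 - 1) (hz2 : (L : ℤ) ∣ z.2)
    (hw1 : (L : ℤ) ∣ w.1) (hw2 : (L : ℤ) ∣ w.2 - 1) (Y Bd E : ℕ) (hY : 2 ≤ Y)
    (hBd : ∀ s ∈ V, nm (lin s z w) ≤ (Bd : ℤ)) (hE : Bd ≤ Y ^ E)
    (hts : ∀ s ∈ V, ∀ p : ℕ, p.Prime → p ≤ Y → ¬ p ∣ L → ¬ (p : ℤ) ∣ nm (lin s z w)) :
    ∃ u ∈ V, ∃ v ∈ V, ∃ n : ℤ, dt u v ≠ 0 ∧ dp (lin u z w) (lin v z w) = dt u v * n ∧
      (om (n ^ 2 + 1) : ZMod q) ∈ A ∧
      om (n ^ 2 + 1) ≤ 2 * (cardFactors P + E) ∧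
      om ((dt u v) ^ 2 * (n ^ 2 + 1)) ≤ 2 * (cardFactors P + E) ∧
      n.natAbs ≤ Bd ∧
      ∃ s r : ℕ, n.natAbs ^ 2 + 1 = s * r ∧ s ≤ P ^ 2 ∧
        ∀ p, p.Prime → p ∣ r → Y < p := by
  have hPL : (P : ℤ) ∣ L := by
    rw [hL]; push_cast; exact ⟨F * P, by ring⟩
  obtain ⟨u, hu, v, hv, n, hD, hDdvd, hn, hcls, hom1, hom2, hprod, hsize⟩ :=
    transferB hV (L : ℤ) (fun u hu v hv h => (hP3 u hu v hv h).trans hPL) z w hdet hz1 hz2
      hw1 hw2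
  have hnz := hV.1
  have hrough : ∀ s ∈ V, ∃ r : ℕ, (nm (lin s z w)).natAbs = (nm s).natAbs * r ∧ r ≠ 0 ∧
      ∀ p, p.Prime → p ∣ r → Y < p := by
    intro s hs
    have hsub := nm_lin_sub (L : ℤ) s z w hz1 hz2 hw1 hw2
    exact rough_partB s (lin s z w) (hnz s hs).1 L P F Y hL (hP1 s hs) hsub
      (nm_lin_ne s z w (hnz s hs).1 hdet) (fun p hp hpY hpL => hts s hs p hp hpY hpL)
  have hnm0 : ∀ s ∈ V, (nm s).natAbs ≠ 0 := by
    intro s hs h0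
    rw [Int.natAbs_eq_zero] at h0
    exact (hnz s hs).1 h0
  have hOm : ∀ s ∈ V, om (nm (lin s z w)) ≤ cardFactors P + E := by
    intro s hs
    obtain ⟨r, hr, hr0, hrp⟩ := hrough s hs
    have hs0 := hnm0 s hs
    have hrle : r ≤ Y ^ E := by
      have h1 : r ≤ (nm (lin s z w)).natAbs := by
        rw [hr]; exact Nat.le_mul_of_pos_left _ (Nat.pos_of_ne_zero hs0)
      have h2 : (nm (lin s z w)).natAbs ≤ Bd := by
        have h3 := hBd s hs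
        have h4 := nm_nonneg (lin s z w)
        omega
      omega
    have h7 := cardFactors_rough (nm s).natAbs r Y E hs0 hr0 hY hrp hrle
    have h8 : cardFactors (nm s).natAbs ≤ cardFactors P :=
      cardFactors_le_of_dvd (by exact Int.natAbs_dvd_natAbs.mpr (hP1 s hs)) hP.ne'
    have h9 : om (nm (lin s z w)) = cardFactors ((nm s).natAbs * r) := by
      rw [om, hr]
    rw [h9]
    omega
  refine ⟨u, hu, v, hv, n, hD, hn, hcls, ?_, ?_, ?_, ?_⟩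
  · have h1 := hOm u hu
    have h2 := hOm v hv
    omega
  · have h1 := hOm u hu
    have h2 := hOm v hv
    omega
  · have h1 := hBd u hu
    have h2 := hBd v hv
    have h3 : n ^ 2 ≤ (Bd : ℤ) ^ 2 := by
      have h4 : nm (lin u z w) * nm (lin v z w) ≤ (Bd : ℤ) * Bd :=
        mul_le_mul h1 h2 (nm_nonneg _) (by positivity)
      nlinarith
    have h5 : |n| ≤ (Bd : ℤ) := abs_le_of_sq_le_sq h3 (by positivity)
    have h6 : ((n.natAbs : ℕ) : ℤ) ≤ (Bd : ℤ) := by rw [Int.natCast_natAbs]; exact h5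
    exact_mod_cast h6
  · obtain ⟨ru, hru, hru0, hrup⟩ := hrough u hu
    obtain ⟨rv, hrv, hrv0, hrvp⟩ := hrough v hv
    obtain ⟨m0, hm0⟩ := hDdvd
    have e1 : nm u * nm v = (dt u v) ^ 2 * (m0 ^ 2 + 1) := by
      have h4 := dp_sq_add_dt_sq u v
      rw [hm0] at h4
      linear_combination -h4
    have key : ∀ k : ℤ, (k ^ 2 + 1).natAbs = k.natAbs ^ 2 + 1 := by
      intro k
      have h1 : (k ^ 2 + 1) = ((k.natAbs ^ 2 + 1 : ℕ) : ℤ) := by
        push_cast; rw [sq_abs]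
      rw [h1, Int.natAbs_natCast]
    have e2 : (nm u).natAbs * (nm v).natAbs = (dt u v).natAbs ^ 2 * (m0.natAbs ^ 2 + 1) := by
      rw [← Int.natAbs_mul, e1, Int.natAbs_mul, Int.natAbs_pow, key]
    have e3 : (nm u).natAbs * ru * ((nm v).natAbs * rv) =
        (dt u v).natAbs ^ 2 * (n.natAbs ^ 2 + 1) := by
      rw [← hru, ← hrv, ← Int.natAbs_mul, hprod, Int.natAbs_mul, Int.natAbs_pow, key]
    have hD0 : (dt u v).natAbs ^ 2 ≠ 0 := pow_ne_zero 2 (Int.natAbs_ne_zero.mpr hD)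
    refine ⟨m0.natAbs ^ 2 + 1, ru * rv, ?_, ?_, ?_⟩
    · apply mul_left_cancel₀ hD0
      rw [← e3]
      calc (nm u).natAbs * ru * ((nm v).natAbs * rv)
          = (nm u).natAbs * (nm v).natAbs * (ru * rv) := by ring
        _ = _ := by rw [e2]; ring
    · have h1 : m0.natAbs ^ 2 + 1 ≤ (nm u).natAbs * (nm v).natAbs := by
        rw [e2]; exact Nat.le_mul_of_pos_left _ (Nat.pos_of_ne_zero hD0)
      have h2 : ∀ s ∈ V, (nm s).natAbs ≤ P := by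
        intro s hs
        have h3 := Int.natAbs_dvd_natAbs.mpr (hP1 s hs)
        rw [Int.natAbs_natCast] at h3
        exact Nat.le_of_dvd hP h3
      refine h1.trans ?_
      rw [sq]
      exact Nat.mul_le_mul (h2 u hu) (h2 v hv)
    · intro p hp hpr
      rcases hp.dvd_mul.mp hpr with h | h
      · exact hrup p hp h
      · exact hrvp p hp h

/-- the data of a base -/
def OneBB (q : ℕ) (A : Set (ZMod q)) (V : Finset (ℤ × ℤ)) (P Y Bd R : ℕ) (z w u v : ℤ × ℤ) (n : ℤ) : Prop :=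
  u ∈ V ∧ v ∈ V ∧ dt u v ≠ 0 ∧ dp (lin u z w) (lin v z w) = dt u v * n ∧
      (om (n ^ 2 + 1) : ZMod q) ∈ A ∧
      om (n ^ 2 + 1) ≤ R ∧
      om ((dt u v) ^ 2 * (n ^ 2 + 1)) ≤ R ∧
      n.natAbs ≤ Bd ∧
      ∃ s r : ℕ, n.natAbs ^ 2 + 1 = s * r ∧ s ≤ P ^ 2 ∧
        ∀ p, p.Prime → p ∣ r → Y < p

/-- the property of `m` in the theorem -/
def GoodB (q : ℕ) (A : Set (ZMod q)) (R m : ℕ) : Prop :=
  cardFactors (m ^ 2 + 1) ≤ R ∧ ((cardFactors (m ^ 2 + 1) : ℕ) : ZMod q) ∈ A ∧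
    ∃ s r : ℕ, m ^ 2 + 1 = s * r ∧ s ≤ R ∧ ∀ p, p.Prime → p ∣ r → m < p ^ R

theorem count_basesB {q : ℕ} {A : Set (ZMod q)} {V : Finset (ℤ × ℤ)} {P Y Bd R E R' : ℕ} (hP : 0 < P)
    (hP3 : ∀ u ∈ V, ∀ v ∈ V, dt u v ≠ 0 → dt u v ∣ (P : ℤ))
    (hBd : Bd ≤ Y ^ E) (hR1 : R ≤ R') (hR2 : P ^ 2 ≤ R') (hR3 : E ≤ R') (hE : 0 < E)
    {ι : Type*} (S : Finset ι) (f : ι → (ℤ × ℤ) × (ℤ × ℤ)) (hf : Set.InjOn f S)
    (hdet : ∀ x ∈ S, dt (f x).1 (f x).2 = 1)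
    (h : ∀ x ∈ S, ∃ u v : ℤ × ℤ, ∃ n : ℤ, OneBB q A V P Y Bd R (f x).1 (f x).2 u v n) :
    S.card ≤ 2 ^ R * (4 * P + 1) ^ 2 * (V.card * (V.card * 2) *
      Set.ncard {m : ℕ | m ≤ Bd ∧ GoodB q A R' m}) := by
  classical
  choose! u v n hu hv hD hdp hcls hom1 hom2 hsz hfac using h
  set g : ι → (ℤ × ℤ) × (ℤ × ℤ) × ℤ := fun s => (u s, v s, n s) with hg
  have step1 : S.card ≤ 2 ^ R * (4 * P + 1) ^ 2 * (S.image g).card := by
    apply card_le_mul_card_image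
    intro b hb
    obtain ⟨s0, hs0, rfl⟩ := mem_image.mp hb
    have hinj : Set.InjOn f ((S.filter (fun x => g x = g s0) : Finset ι) : Set ι) :=
      hf.mono (by intro x hx; exact (mem_filter.mp hx).1)
    rw [← card_image_of_injOn hinj]
    refine fibre_two (u s0) (v s0) (n s0) (hD s0 hs0) R P ?_ (hom2 s0 hs0) _ ?_
    · have h1 := Int.natAbs_dvd_natAbs.mpr (hP3 _ (hu s0 hs0) _ (hv s0 hs0) (hD s0 hs0))
      rw [Int.natAbs_natCast] at h1
      exact Nat.le_of_dvd hP h1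
    · intro s hs
      obtain ⟨x, hx, rfl⟩ := mem_image.mp hs
      obtain ⟨hxS, hxg⟩ := mem_filter.mp hx
      simp only [hg, Prod.mk.injEq] at hxg
      obtain ⟨e1, e2, e3⟩ := hxg
      refine ⟨hdet x hxS, ?_⟩
      rw [← e1, ← e2, ← e3]
      exact hdp x hxS
  have step2 : (S.image g).card ≤ V.card * (V.card * 2) *
      ((S.image g).image fun b : (ℤ × ℤ) × (ℤ × ℤ) × ℤ => b.2.2.natAbs).card := by
    apply card_le_mul_card_image
    intro m hm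
    have hsub : ((S.image g).filter fun b : (ℤ × ℤ) × (ℤ × ℤ) × ℤ => b.2.2.natAbs = m) ⊆
        V ×ˢ (V ×ˢ ({(m : ℤ), -(m : ℤ)} : Finset ℤ)) := by
      intro b hb
      obtain ⟨hb1, hb2⟩ := mem_filter.mp hb
      obtain ⟨s, hs, rfl⟩ := mem_image.mp hb1
      simp only [hg] at hb2 ⊢
      rw [mem_product, mem_product]
      refine ⟨hu s hs, hv s hs, ?_⟩
      rw [mem_insert, mem_singleton]
      exact Int.natAbs_eq_iff.mp hb2
    refine (card_le_card hsub).trans ?_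
    rw [card_product, card_product]
    exact Nat.mul_le_mul_left _ (Nat.mul_le_mul_left _ card_le_two)
  have hfin : {m : ℕ | m ≤ Bd ∧ GoodB q A R' m}.Finite :=
    (Set.finite_Iic Bd).subset fun m hm => hm.1
  have step3 : ((S.image g).image fun b : (ℤ × ℤ) × (ℤ × ℤ) × ℤ => b.2.2.natAbs).card ≤
      Set.ncard {m : ℕ | m ≤ Bd ∧ GoodB q A R' m} := by
    rw [← Set.ncard_coe_finset]
    apply Set.ncard_le_ncard _ hfin
    intro m hm
    rw [mem_coe, mem_image] at hm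
    obtain ⟨b, hb, rfl⟩ := hm
    obtain ⟨s, hs, rfl⟩ := mem_image.mp hb
    have hkey : om ((n s) ^ 2 + 1) = cardFactors ((n s).natAbs ^ 2 + 1) := by
      rw [om]
      congr 1
      have h1 : ((n s) ^ 2 + 1) = (((n s).natAbs ^ 2 + 1 : ℕ) : ℤ) := by
        push_cast; rw [sq_abs]
      rw [h1, Int.natAbs_natCast]
    obtain ⟨s', r', hsr, hs', hr'⟩ := hfac s hs
    refine ⟨hsz s hs, ?_, ?_, s', r', hsr, hs'.trans hR2, ?_⟩
    · change cardFactors ((n s).natAbs ^ 2 + 1) ≤ R'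
      rw [← hkey]; exact (hom1 s hs).trans hR1
    · change ((cardFactors ((n s).natAbs ^ 2 + 1) : ℕ) : ZMod q) ∈ A
      rw [← hkey]; exact hcls s hs
    · intro p hp hpr
      have h1 := hr' p hp hpr
      change (n s).natAbs < p ^ R'
      calc (n s).natAbs ≤ Bd := hsz s hs
        _ ≤ Y ^ E := hBd
        _ < p ^ E := Nat.pow_lt_pow_left h1 (by omega)
        _ ≤ p ^ R' := Nat.pow_le_pow_right hp.pos hR3
  calc S.card ≤ 2 ^ R * (4 * P + 1) ^ 2 * (S.image g).card := step1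
    _ ≤ 2 ^ R * (4 * P + 1) ^ 2 * (V.card * (V.card * 2) *
      Set.ncard {m : ℕ | m ≤ Bd ∧ GoodB q A R' m}) := by
        refine Nat.mul_le_mul_left _ (step2.trans (Nat.mul_le_mul_left _ step3))

/-- a common modulus -/
theorem exists_PB {q : ℕ} {A : Set (ZMod q)} {V : Finset (ℤ × ℤ)} (hV : IsCertB q A V) :
    ∃ P : ℕ, 0 < P ∧ (∀ u ∈ V, nm u ∣ (P : ℤ)) ∧ (∀ u ∈ V, u.2 ∣ (P : ℤ)) ∧
      ∀ u ∈ V, ∀ v ∈ V, dt u v ≠ 0 → dt u v ∣ (P : ℤ) := by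
  classical
  obtain ⟨P, hP⟩ : ∃ P : ℕ, P = (∏ u ∈ V, ((nm u).natAbs * (u.2).natAbs)) *
      ∏ u ∈ V, ∏ v ∈ V, (if dt u v = 0 then 1 else (dt u v).natAbs) := ⟨_, rfl⟩
  have hnm0 : ∀ u ∈ V, (nm u).natAbs ≠ 0 := by
    intro s hs h0
    rw [Int.natAbs_eq_zero] at h0
    exact (hV.1 s hs).1 h0
  refine ⟨P, ?_, ?_, ?_, ?_⟩
  · rw [hP]
    apply Nat.mul_pos
    · apply prod_pos
      intro u hu
      exact Nat.mul_pos (Nat.pos_of_ne_zero (hnm0 u hu))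
        (Int.natAbs_pos.mpr (hV.1 u hu).2)
    · apply prod_pos
      intro u _
      apply prod_pos
      intro v _
      split_ifs with h0
      · exact one_pos
      · exact Int.natAbs_pos.mpr h0
  · intro u hu
    rw [← Int.natAbs_dvd, Int.natCast_dvd_natCast, hP]
    exact ((dvd_mul_right _ _).trans (dvd_prod_of_mem
      (fun u : ℤ × ℤ => (nm u).natAbs * (u.2).natAbs) hu)).mul_right _
  · intro u hu
    rw [← Int.natAbs_dvd, Int.natCast_dvd_natCast, hP]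
    exact ((dvd_mul_left _ _).trans (dvd_prod_of_mem
      (fun u : ℤ × ℤ => (nm u).natAbs * (u.2).natAbs) hu)).mul_right _
  · intro u hu v hv h0
    rw [← Int.natAbs_dvd, Int.natCast_dvd_natCast, hP]
    refine Dvd.dvd.mul_left ?_ _
    have h1 : (dt u v).natAbs ∣ ∏ v ∈ V, (if dt u v = 0 then 1 else (dt u v).natAbs) := by
      have h2 := dvd_prod_of_mem (fun v : ℤ × ℤ => if dt u v = 0 then 1 else (dt u v).natAbs) hv
      simp only [h0, if_false] at h2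
      exact h2
    exact h1.trans (dvd_prod_of_mem
      (fun u : ℤ × ℤ => ∏ v ∈ V, (if dt u v = 0 then 1 else (dt u v).natAbs)) hu)

theorem count_logB {q : ℕ} {A : Set (ZMod q)} (h : CertB q A) : ∃ C R : ℕ, ∃ c : ℝ, 0 < c ∧
    ∀ᶠ X : ℕ in Filter.atTop, c * (X : ℝ) ^ 2 / Real.log X ^ R ≤
      Set.ncard {m : ℕ | m ≤ C * X ^ 2 ∧ GoodB q A R m} := by
  classical
  obtain ⟨V, hV⟩ := h
  have hVne : V.Nonempty := by
    obtain ⟨u, hu, -⟩ := hV.2 (fun _ => 0)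
    exact ⟨u, hu⟩
  have hVc : 1 ≤ V.card := hVne.card_pos
  obtain ⟨P, hP, hP1, hP2, hP3⟩ := exists_PB hV
  set K := 2 * V.card with hK
  set F := (2 * K).factorial with hF
  have hF0 : 0 < F := Nat.factorial_pos _
  set L := F * P ^ 2 with hL
  have hL0 : 0 < L := by positivity
  have hPL : (P : ℤ) ∣ L := by
    rw [hL]; push_cast; exact ⟨F * P, by ring⟩
  have hFL : F ∣ L := dvd_mul_right _ _
  have hLp : ∀ p, p.Prime → p ≤ 2 * K → p ∣ L := fun p hp hpK =>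
    (Nat.dvd_factorial hp.pos hpK).trans hFL
  obtain ⟨C, hC1, c, hc, hX⟩ := sum_GP V hVc L hL0 (fun u hu => (hP2 u hu).trans hPL)
  set E := 8 * C + 1 with hE
  set R := 2 * (cardFactors P + E) with hR
  set R' := R + P ^ 2 + E + (8 * K + 2) with hR'
  set F1 : ℕ := 2 ^ R * (4 * P + 1) ^ 2 with hF1
  set F2 : ℕ := V.card * (V.card * 2) with hF2
  have hF1pos : 0 < F1 := by positivity
  have hF2pos : 0 < F2 := by positivity
  refine ⟨4 * L ^ 4 * P, R', c / (F1 * F2), by positivity, ?_⟩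
  filter_upwards [hX, Filter.eventually_ge_atTop ((4 * L ^ 4 * P + 2) ^ (4 * C)), Filter.eventually_ge_atTop 3]
    with X h1 h2 h3
  obtain ⟨Rs, hRs, hsum⟩ := h1
  have hXr : (3 : ℝ) ≤ X := by exact_mod_cast h3
  have hX0 : (0 : ℝ) < X := by linarith
  have hX1 : X ≠ 0 := by omega
  have hl1 : 1 ≤ Real.log X := by
    rw [Real.le_log_iff_exp_le hX0]
    have := Real.exp_one_lt_d9
    linarith
  set m := Nat.log 2 X / (2 * C) with hm
  set Y := 2 ^ m with hY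
  -- `X ≤ Y ^ (4 C)`
  have hXY0 : X < (2 ^ (m + 1)) ^ (2 * C) := by
    rw [← pow_mul]
    refine (Nat.lt_pow_succ_log_self (by norm_num) X).trans_le (Nat.pow_le_pow_right (by norm_num) ?_)
    have h4 := Nat.lt_div_mul_add (a := Nat.log 2 X) (b := 2 * C) (by omega)
    rw [← hm] at h4
    have h5 : (m + 1) * (2 * C) = m * (2 * C) + 2 * C := by ring
    omega
  have hm1 : 1 ≤ m := by
    by_contra hcon
    have hm0 : m = 0 := Nat.lt_one_iff.mp (not_le.mp hcon)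
    rw [hm0] at hXY0
    have h4 : (4 * L ^ 4 * P + 2) ^ (4 * C) < (2 ^ (0 + 1)) ^ (2 * C) := lt_of_le_of_lt h2 hXY0
    have h5 : (2 ^ (0 + 1)) ^ (2 * C) ≤ (4 * L ^ 4 * P + 2) ^ (4 * C) := by
      calc (2 ^ (0 + 1)) ^ (2 * C) = 2 ^ (2 * C) := by norm_num
        _ ≤ 2 ^ (4 * C) := Nat.pow_le_pow_right (by norm_num) (by omega)
        _ ≤ (4 * L ^ 4 * P + 2) ^ (4 * C) := Nat.pow_le_pow_left (by omega) _
    omega
  have hY2 : 2 ≤ Y := by
    calc 2 = 2 ^ 1 := (pow_one 2).symm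
      _ ≤ 2 ^ m := Nat.pow_le_pow_right (by norm_num) hm1
  have hXY : X < Y ^ (4 * C) := by
    refine hXY0.trans_le ?_
    calc (2 ^ (m + 1)) ^ (2 * C) = (Y * 2) ^ (2 * C) := by rw [pow_succ]
      _ ≤ (Y * Y) ^ (2 * C) := Nat.pow_le_pow_left (Nat.mul_le_mul_left _ hY2) _
      _ = Y ^ (4 * C) := by rw [← pow_two, ← pow_mul]; congr 1; ring
  have hYL : 4 * L ^ 4 * P ≤ Y := by
    have h4 : (4 * L ^ 4 * P + 2) ^ (4 * C) < Y ^ (4 * C) := lt_of_le_of_lt h2 hXY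
    have h5 := lt_of_pow_lt_pow_left₀ (4 * C) (by omega) h4
    omega
  set Bd := 4 * L ^ 4 * P * X ^ 2 with hBd
  have hBdE : Bd ≤ Y ^ E := by
    calc Bd ≤ Y * (Y ^ (4 * C)) ^ 2 := Nat.mul_le_mul hYL (Nat.pow_le_pow_left hXY.le 2)
      _ = Y ^ E := by rw [hE, ← pow_mul, ← pow_succ']; congr 1; ring
  -- the bases
  set S : Finset (Σ _ : ℕ, ℕ × ℕ) := Rs.sigma (fun r => GP V K L r Y) with hS
  have hScard : S.card = ∑ r ∈ Rs, (GP V K L r Y).card := card_sigma _ _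
  have hmem : ∀ x ∈ S, x.1 ∈ Rs ∧ x.2.1 < x.1 ∧ x.2.2 < x.1 ∧ x.1 ∣ L ^ 2 * (x.2.1 * x.2.2) + 1 ∧
      ∀ p ∈ PP K Y, (x.2.1 % p, x.2.2 % p) ∉ Bs V L x.1 p := by
    intro x hx
    rw [hS, mem_sigma] at hx
    obtain ⟨h4, h5⟩ := hx
    unfold GP at h5
    rw [mem_filter, mem_PT] at h5
    exact ⟨h4, h5.1.1, h5.1.2.1, h5.1.2.2, h5.2⟩
  set f : (Σ _ : ℕ, ℕ × ℕ) → (ℤ × ℤ) × (ℤ × ℤ) := fun x => (bz L x.1 x.2.1, bw L x.1 x.2.1 x.2.2) with hf
  have hfinj : Set.InjOn f S := by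
    rintro ⟨r, b, c⟩ hx ⟨r', b', c'⟩ hx' he
    have hLz : (L : ℤ) ≠ 0 := by exact_mod_cast hL0.ne'
    simp only [hf, bz, bw, Prod.mk.injEq] at he
    obtain ⟨⟨e1, e2⟩, e3, -⟩ := he
    have e1' : r = r' := by exact_mod_cast e1
    have e2' : b = b' := by exact_mod_cast mul_left_cancel₀ hLz e2
    have e3' : c = c' := by exact_mod_cast mul_left_cancel₀ hLz e3
    subst e1' e2' e3'
    rfl
  have hone : ∀ x ∈ S, ∃ u v : ℤ × ℤ, ∃ n : ℤ, OneBB q A V P Y Bd R (f x).1 (f x).2 u v n := by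
    intro x hx
    obtain ⟨g1, g2, g3, g4, g5⟩ := hmem x hx
    obtain ⟨k1, k2, k3, k4⟩ := hRs x.1 g1
    obtain ⟨u, hu, v, hv, n, o1, o2, o3, o4, o5, o6, o7⟩ :=
      one_baseB hV F P L hL hP hP1 hP3 (bz L x.1 x.2.1) (bw L x.1 x.2.1 x.2.2)
        (dt_base L _ _ _ g4) (bz_one _ k2) (bz_two _ _ _) (bw_one _ _ _ _) (bw_two _ _ k2 g4) Y Bd E hY2
        (by
          intro s hs
          have h4 := nm_base_le L x.1 x.2.1 x.2.2 hL0 k1.pos g2 g3 g4 s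
          refine h4.trans ?_
          have h5 : nm s ≤ (P : ℤ) := Int.le_of_dvd (by exact_mod_cast hP) (hP1 s hs)
          have h6 : (x.1 : ℤ) ^ 2 ≤ (X : ℤ) ^ 2 := by
            apply pow_le_pow_left₀ (Int.natCast_nonneg _)
            exact_mod_cast k3
          rw [hBd]
          push_cast
          have h7 := nm_nonneg s
          have h8 : (4 : ℤ) * (L : ℤ) ^ 4 * nm s ≤ 4 * (L : ℤ) ^ 4 * P :=
            mul_le_mul_of_nonneg_left h5 (by positivity)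
          exact mul_le_mul h8 h6 (sq_nonneg _) (by positivity))
        hBdE (rough_of V K L x.1 Y hLp x.2.1 x.2.2 g4 g5)
    exact ⟨u, v, n, hu, hv, o1, o2, o3, o4, o5, o6, o7⟩
  have hmain := count_basesB (q := q) (A := A) (V := V) (P := P) (Y := Y) (Bd := Bd) (R := R) (E := E)
    (R' := R') hP hP3 hBdE (by omega) (by omega) (by omega) (by omega) S f hfinj
    (fun x hx => dt_base L _ _ _ (hmem x hx).2.2.2.1) hone
  have hmain' : ((∑ r ∈ Rs, (GP V K L r Y).card : ℕ) : ℝ) ≤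
      F1 * (F2 * (Set.ncard {m : ℕ | m ≤ Bd ∧ GoodB q A R' m} : ℝ)) := by
    rw [← hScard]
    exact_mod_cast hmain
  have hF1r : (0 : ℝ) < F1 := by exact_mod_cast hF1pos
  have hF2r : (0 : ℝ) < F2 := by exact_mod_cast hF2pos
  have hlog : Real.log X ^ (8 * K + 2) ≤ Real.log X ^ R' := pow_le_pow_right₀ hl1 (by omega)
  have hlog0 : 0 < Real.log X ^ (8 * K + 2) := by positivity
  calc c / (F1 * F2) * (X : ℝ) ^ 2 / Real.log X ^ R'
      ≤ c / (F1 * F2) * (X : ℝ) ^ 2 / Real.log X ^ (8 * K + 2) :=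
        div_le_div_of_nonneg_left (by positivity) hlog0 hlog
    _ = (c * (X : ℝ) ^ 2 / Real.log X ^ (8 * K + 2)) / (F1 * F2) := by ring
    _ ≤ (F1 * (F2 * (Set.ncard {m : ℕ | m ≤ Bd ∧ GoodB q A R' m} : ℝ))) / (F1 * F2) := by
        apply div_le_div_of_nonneg_right (hsum.trans hmain') (by positivity)
    _ = (Set.ncard {m : ℕ | m ≤ 4 * L ^ 4 * P * X ^ 2 ∧ GoodB q A R' m} : ℝ) := by
        rw [hBd]
        field_simp

theorem almost_prime_logB {q : ℕ} {A : Set (ZMod q)} (h : CertB q A) :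
    ∃ R : ℕ, ∀ᶠ N : ℕ in Filter.atTop, √(N : ℝ) / Real.log N ^ R ≤
      Set.ncard {k : ℕ | k ≤ N ∧ (∃ m : ℕ, k = m ^ 2 + 1) ∧ cardFactors k ≤ R ∧
        ((cardFactors k : ℕ) : ZMod q) ∈ A ∧
        ∃ s r : ℕ, k = s * r ∧ s ≤ R ∧ ∀ p : ℕ, p.Prime → p ∣ r → k < p ^ R} := by
  obtain ⟨C, R, c, hc, hX⟩ := count_logB h
  have h1 := convert_log (fun m => GoodB q A R m) C R c hc hX
  obtain ⟨R', hR'⟩ : ∃ R', R' = 2 * R + 1 := ⟨_, rfl⟩
  refine ⟨R', ?_⟩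
  have hlog : Filter.Tendsto (fun N : ℕ => Real.log N) Filter.atTop Filter.atTop :=
    Real.tendsto_log_atTop.comp tendsto_natCast_atTop_atTop
  filter_upwards [h1, hlog.eventually_ge_atTop 1] with N hN hl
  have hle : √(N : ℝ) / Real.log N ^ R' ≤ √(N : ℝ) / Real.log N ^ (R + 1) := by
    apply div_le_div_of_nonneg_left (Real.sqrt_nonneg _) (by positivity)
    exact pow_le_pow_right₀ hl (by omega)
  refine hle.trans (hN.trans (Nat.cast_le.mpr (Set.ncard_le_ncard ?_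
    ((Set.finite_Iic N).subset fun k hk => hk.1))))
  rintro k ⟨hkN, m, rfl, hcard, hcls, s, r, hsr, hsR, hr⟩
  have hs0 : s ≠ 0 := by
    rintro rfl
    rw [zero_mul] at hsr
    omega
  have hR1 : 1 ≤ R := by omega
  refine ⟨hkN, ⟨m, rfl⟩, by omega, hcls, s, r, hsr, by omega, ?_⟩
  intro p hp hpr
  have h4 := hr p hp hpr
  have h5 : 2 ≤ p ^ R := by
    calc 2 ≤ p := hp.two_le
      _ = p ^ 1 := (pow_one p).symm
      _ ≤ p ^ R := Nat.pow_le_pow_right hp.pos hR1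
  have h6 : p ^ (2 * R) = p ^ R * p ^ R := by rw [two_mul, pow_add]
  have h7 : p ^ (2 * R) ≤ p ^ R' := Nat.pow_le_pow_right hp.pos (by omega)
  have h8 : m ^ 2 + 1 < p ^ R * p ^ R := by nlinarith
  omega

end Pool.Agent.OmEv
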