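import Pool.Agent.Lib_MP_f1a94e_ev.EvenCertK

/-!
# MP_f1a94e_nt: almost primes `m ^ 2 + 1` with `Ω` in an even class
-/

set_option autoImplicit false

namespace Pool.Agent.OmEv

open Finset ArithmeticFunction

/-- part (2): every even class modulo every `q` -/
theorem almost_prime_even (q : ℕ) (hq : 0 < q) (a : ℤ) (ha : Even a) :
    ∃ R : ℕ, ∀ᶠ N : ℕ in Filter.atTop, √(N : ℝ) / Real.log N ^ R ≤
      Set.ncard {k : ℕ | k ≤ N ∧ (∃ m : ℕ, k = m ^ 2 + 1) ∧ cardFactors k ≤ R ∧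
        (cardFactors k : ℤ) ≡ a [ZMOD q] ∧
        ∃ s r : ℕ, k = s * r ∧ s ≤ R ∧ ∀ p : ℕ, p.Prime → p ∣ r → k < p ^ R} := by
  obtain ⟨R, hR⟩ := almost_prime_logE (evenCert q hq a ha)
  refine ⟨R, ?_⟩
  filter_upwards [hR] with N hN
  refine hN.trans (Nat.cast_le.mpr (Set.ncard_le_ncard ?_ ((Set.finite_Iic N).subset
    fun k hk => hk.1)))
  rintro k ⟨hkN, hm, hc, hA, hs⟩
  refine ⟨hkN, hm, hc, ?_, hs⟩
  rw [Set.mem_singleton_iff] at hA
  exact (ZMod.intCast_eq_intCast_iff _ _ _).mp (by push_cast; exact hA)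

end Pool.Agent.OmEv
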