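import Pool.Agent.Lib_MP_f1a94e_ev.KlE

/-!
# From the line `s + j` to a certificate with norms of either parity
-/

set_option autoImplicit false

namespace Pool.Agent.OmEv

open Finset ArithmeticFunction Pool.Agent.OmAP

/-- one even number `s` with `s ^ 2 + 4` divisible by all products of different primes
`p = 1` modulo 4 up to `K` -/
theorem exists_even_root (K : ℕ) : ∃ t : ℕ, ∀ k : ℕ, k ≤ K → Squarefree k →
    (∀ p ∈ k.primeFactors, p % 4 = 1) → k ∣ t ^ 2 + 1 := by
  classical
  obtain ⟨M, hM⟩ : ∃ M : ℕ, M = ∏ p ∈ (range (K + 1)).filter (fun p => p.Prime ∧ p % 4 = 1), p :=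
    ⟨_, rfl⟩
  have hsq : Squarefree M := by
    rw [hM]
    refine Finset.squarefree_prod_of_pairwise_isCoprime ?_ ?_
    · intro p hp r hr hne
      have hp' := (mem_filter.mp (mem_coe.mp hp)).2.1
      have hr' := (mem_filter.mp (mem_coe.mp hr)).2.1
      exact Nat.coprime_iff_isRelPrime.mp ((Nat.coprime_primes hp' hr').mpr hne)
    · intro p hp
      exact (mem_filter.mp hp).2.1.prime.squarefree
  have hpr : ∀ p : ℕ, p.Prime → p ∣ M → p % 4 = 1 := by
    intro p hp hpM
    rw [hM] at hpM
    obtain ⟨r, hr, hpr⟩ := (hp.prime.dvd_finsetProd_iff _).mp hpM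
    obtain ⟨-, hr1, hr2⟩ := mem_filter.mp hr
    rwa [(Nat.prime_dvd_prime_iff_eq hp hr1).mp hpr]
  have hM0 : M ≠ 0 := hsq.ne_zero
  have : NeZero M := ⟨hM0⟩
  have h1 : IsSquare (-1 : ZMod M) := by
    rw [ZMod.isSquare_neg_one_iff_forall_mem_primeFactors_mod_four_ne_three hsq]
    intro p hp
    have := hpr p (Nat.prime_of_mem_primeFactors hp) (Nat.dvd_of_mem_primeFactors hp)
    omega
  obtain ⟨y, hy⟩ := h1
  refine ⟨y.val, ?_⟩
  have h2 : M ∣ y.val ^ 2 + 1 := by
    rw [← ZMod.natCast_eq_zero_iff]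
    push_cast
    rw [ZMod.natCast_zmod_val, sq, ← hy]
    ring
  intro k hk hksq hkp
  refine Dvd.dvd.trans ?_ h2
  rw [← Nat.prod_primeFactors_of_squarefree hksq, hM]
  apply prod_dvd_prod_of_subset
  intro p hp
  have hpp := Nat.prime_of_mem_primeFactors hp
  have hle := (Nat.le_of_mem_primeFactors hp).trans hk
  exact mem_filter.mpr ⟨mem_range.mpr (by omega), hpp, hkp p hp⟩

/-- the vector of the position `j` -/
def vecE (t j : ℕ) : ℤ × ℤ :=
  if Even j then ((t : ℤ) + (j / 2 : ℕ), 1) else (2 * (t : ℤ) + j, 2)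

/-- from the line to a certificate -/
theorem certE_of_line {q : ℕ} {a : ℤ}
    (h : ∃ N K : ℕ, ∀ Z : ℕ → ZMod q, ∃ j k e : ℕ, 0 < k ∧ k ≤ K ∧ Squarefree k ∧
      (∀ p ∈ k.primeFactors, p % 4 = 1) ∧ k ∣ j ∧ (e = 1 ∨ e = 2 ∧ Even j) ∧ j + e * k < N ∧
      Z j + Z (j + e * k) = (a : ZMod q) + 2 * (cardFactors k : ZMod q)) :
    ∃ V : Finset (ℤ × ℤ), IsCertE q {(a : ZMod q)} V := by
  classical
  obtain ⟨N, K, h⟩ := h
  obtain ⟨t, ht⟩ := exists_even_root K
  refine ⟨(range N).image (vecE t), ?_, ?_⟩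
  · intro u hu
    obtain ⟨j, -, rfl⟩ := mem_image.mp hu
    have h2 : (vecE t j).2 ≠ 0 := by
      unfold vecE
      split_ifs <;> simp
    refine ⟨?_, h2⟩
    have h3 : 0 < (vecE t j).2 ^ 2 := by positivity
    have h4 := sq_nonneg (vecE t j).1
    simp only [nm]
    omega
  · intro X
    obtain ⟨j, k, e, hk0, hkK, hsq, hp, hkj, he, hN, hX⟩ := h (fun j => X (vecE t j))
    have hkodd : Odd k := by
      rw [← Nat.not_even_iff_odd]
      intro hev
      have h2 : 2 ∈ k.primeFactors :=
        Nat.mem_primeFactors.mpr ⟨Nat.prime_two, hev.two_dvd, by omega⟩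
      have := hp 2 h2
      omega
    have hkt : (k : ℤ) ∣ (t : ℤ) ^ 2 + 1 := by exact_mod_cast ht k hkK hsq hp
    have hkj' : (k : ℤ) ∣ (j : ℤ) := by exact_mod_cast hkj
    have hk2 : IsCoprime (k : ℤ) 2 := by
      have h1 : Nat.Coprime k 2 := hkodd.coprime_two_right
      exact_mod_cast Nat.isCoprime_iff_coprime.mpr h1
    refine ⟨_, mem_image_of_mem _ (mem_range.mpr (by nlinarith : j < N)),
      _, mem_image_of_mem _ (mem_range.mpr hN), ?_⟩
    have key : dt (vecE t j) (vecE t (j + e * k)) = -(k : ℤ) ∧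
        ∃ c : ℤ, 4 * dp (vecE t j) (vecE t (j + e * k)) = c * (((2 * t + j) * (2 * t + (j + e * k)) + 4) : ℤ) := by
      obtain ⟨x, hx⟩ := hkodd
      rcases he with rfl | ⟨rfl, hj⟩
      · rcases Nat.even_or_odd' j with ⟨y, hy | hy⟩
        · -- `j` even, `j + k` odd
          have h1 : vecE t j = ((t : ℤ) + y, 1) := by
            unfold vecE
            rw [if_pos ⟨y, by omega⟩, hy, Nat.mul_div_cancel_left _ (by norm_num)]
          have h2 : vecE t (j + 1 * k) = (2 * (t : ℤ) + (j + 1 * k : ℕ), 2) := by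
            unfold vecE
            rw [if_neg (by rw [Nat.not_even_iff_odd]; exact ⟨y + x, by omega⟩)]
          rw [h1, h2]
          subst hy
          refine ⟨?_, 2, ?_⟩
          · simp only [dt]; push_cast; ring
          · simp only [dp]; push_cast; ring
        · have h1 : vecE t j = (2 * (t : ℤ) + j, 2) := by
            unfold vecE
            rw [if_neg (by rw [Nat.not_even_iff_odd]; exact ⟨y, hy⟩)]
          have h2 : vecE t (j + 1 * k) = ((t : ℤ) + (y + x + 1 : ℕ), 1) := by
            unfold vecE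
            rw [if_pos ⟨y + x + 1, by omega⟩,
              show j + 1 * k = 2 * (y + x + 1) by omega, Nat.mul_div_cancel_left _ (by norm_num)]
          rw [h1, h2]
          subst hy hx
          refine ⟨?_, 2, ?_⟩
          · simp only [dt]; push_cast; ring
          · simp only [dp]; push_cast; ring
      · obtain ⟨y, hy⟩ := hj
        have h1 : vecE t j = ((t : ℤ) + y, 1) := by
          unfold vecE
          rw [if_pos ⟨y, by omega⟩, show j = 2 * y by omega, Nat.mul_div_cancel_left _ (by norm_num)]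
        have h2 : vecE t (j + 2 * k) = ((t : ℤ) + (y + k : ℕ), 1) := by
          unfold vecE
          rw [if_pos ⟨y + k, by omega⟩,
            show j + 2 * k = 2 * (y + k) by omega, Nat.mul_div_cancel_left _ (by norm_num)]
        rw [h1, h2]
        subst hy
        refine ⟨?_, 1, ?_⟩
        · simp only [dt]; push_cast; ring
        · simp only [dp]; push_cast; ring
    obtain ⟨hdt, c, hc⟩ := key
    have hom : om (dt (vecE t j) (vecE t (j + e * k))) = cardFactors k := by
      rw [hdt, om, Int.natAbs_neg, Int.natAbs_natCast]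
    refine ⟨?_, ?_, ?_⟩
    · rw [hdt]
      have : (k : ℤ) ≠ 0 := by exact_mod_cast hk0.ne'
      omega
    · rw [hdt, neg_dvd]
      have h1 : (k : ℤ) ∣ 4 * dp (vecE t j) (vecE t (j + e * k)) := by
        rw [hc]
        refine Dvd.dvd.mul_left ?_ _
        obtain ⟨x, hx⟩ := hkt
        obtain ⟨y, hy⟩ := hkj'
        refine ⟨4 * x + 2 * t * (2 * y + e) + y * (k * y + e * k), ?_⟩
        rw [hy]
        linear_combination 4 * hx
      have h2 : IsCoprime (k : ℤ) 4 := by
        have : (4 : ℤ) = 2 * 2 := by norm_num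
        rw [this]
        exact hk2.mul_right hk2
      exact h2.dvd_of_dvd_mul_left h1
    · rw [hom, Set.mem_singleton_iff]
      linear_combination hX

end Pool.Agent.OmEv
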