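import Pool.Agent.Lib_MP_f1a94e_ev.EvenD
import Pool.Agent.Lib_MP_f1a94e_ev.CertB

/-!
# MP_f1a94e_nt: the certificate for the even classes

The vectors `(m + c, 1)` at the even positions `2 m` and `(2 m + 1 + 2 c, 2)` at the odd positions `2 m + 1`.
-/

set_option autoImplicit false

namespace Pool.Agent.OmEv

open Finset ArithmeticFunction LibLS Pool.Agent.OmQ Pool.Agent.OmAP

/-- the vector at the position `J` -/
def vec (c0 J : ℕ) : ℤ × ℤ :=
  if J % 2 = 0 then (((J / 2 + c0 : ℕ) : ℤ), 1) else (((J + 2 * c0 : ℕ) : ℤ), 2)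

theorem vec_even (c0 m : ℕ) : vec c0 (2 * m) = (((m + c0 : ℕ) : ℤ), 1) := by
  unfold vec
  rw [if_pos (by omega)]
  have h : 2 * m / 2 = m := by omega
  rw [h]

theorem vec_odd (c0 m : ℕ) : vec c0 (2 * m + 1) = (((2 * m + 1 + 2 * c0 : ℕ) : ℤ), 2) := by
  unfold vec
  rw [if_neg (by omega)]

theorem vec_props (c0 J : ℕ) : nm (vec c0 J) ≠ 0 ∧ (vec c0 J).2 ≠ 0 := by
  rcases Nat.even_or_odd' J with ⟨m, rfl | rfl⟩
  · rw [vec_even]
    refine ⟨?_, by norm_num⟩
    simp only [nm]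
    positivity
  · rw [vec_odd]
    refine ⟨?_, by norm_num⟩
    simp only [nm]
    positivity

/-- a pair of vectors of the certificate -/
def PairOK (k : ℕ) (u v : ℤ × ℤ) : Prop := dt u v = -(k : ℤ) ∧ dt u v ∣ dp u v

theorem pair_C (c0 m k : ℕ) (h : k ∣ (m + c0) ^ 2 + 1) :
    PairOK k (vec c0 (2 * m)) (vec c0 (2 * (m + k))) := by
  rw [vec_even, vec_even]
  have h1 : dt (((m + c0 : ℕ) : ℤ), 1) (((m + k + c0 : ℕ) : ℤ), 1) = -(k : ℤ) := by
    simp only [dt]
    push_cast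
    ring
  refine ⟨h1, ?_⟩
  rw [h1, neg_dvd]
  obtain ⟨c, hc⟩ := h
  have hc' : ((m : ℤ) + c0) ^ 2 + 1 = k * c := by exact_mod_cast hc
  refine ⟨c + (m + c0), ?_⟩
  simp only [dp]
  push_cast
  linear_combination hc'

theorem pair_A (c0 m l : ℕ) (h : (2 * l + 1) ∣ (m + c0) ^ 2 + 1) :
    PairOK (2 * l + 1) (vec c0 (2 * m)) (vec c0 (2 * m + (2 * l + 1))) := by
  have e : 2 * m + (2 * l + 1) = 2 * (m + l) + 1 := by ring
  rw [e, vec_even, vec_odd]
  have h1 : dt (((m + c0 : ℕ) : ℤ), 1) (((2 * (m + l) + 1 + 2 * c0 : ℕ) : ℤ), 2) =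
      -((2 * l + 1 : ℕ) : ℤ) := by
    simp only [dt]
    push_cast
    ring
  refine ⟨h1, ?_⟩
  rw [h1, neg_dvd]
  obtain ⟨c, hc⟩ := h
  have hc' : ((m : ℤ) + c0) ^ 2 + 1 = (2 * l + 1) * c := by exact_mod_cast hc
  refine ⟨2 * c + (m + c0), ?_⟩
  simp only [dp]
  push_cast
  linear_combination 2 * hc'

theorem pair_B (c0 m l : ℕ) (h : (2 * l + 1) ∣ (m + l + 1 + c0) ^ 2 + 1) :
    PairOK (2 * l + 1) (vec c0 (2 * m + 1)) (vec c0 (2 * m + 1 + (2 * l + 1))) := by
  have e : 2 * m + 1 + (2 * l + 1) = 2 * (m + l + 1) := by ring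
  rw [e, vec_even, vec_odd]
  have h1 : dt (((2 * m + 1 + 2 * c0 : ℕ) : ℤ), 2) (((m + l + 1 + c0 : ℕ) : ℤ), 1) =
      -((2 * l + 1 : ℕ) : ℤ) := by
    simp only [dt]
    push_cast
    ring
  refine ⟨h1, ?_⟩
  rw [h1, neg_dvd]
  obtain ⟨c, hc⟩ := h
  have hc' : ((m : ℤ) + l + 1 + c0) ^ 2 + 1 = (2 * l + 1) * c := by exact_mod_cast hc
  refine ⟨2 * c - (m + l + 1 + c0), ?_⟩
  simp only [dp]
  push_cast
  linear_combination 2 * hc'

/-- `k ∣ (m + c0) ^ 2 + 1` from the prime factors of `k` -/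
theorem dvd_of_primes (c0 k m : ℕ) (hsf : Squarefree k) (h : ∀ p ∈ k.primeFactors, p ∣ c0 ^ 2 + 1)
    (hm : ∀ p ∈ k.primeFactors, p ∣ m) : k ∣ (m + c0) ^ 2 + 1 := by
  rw [← Nat.prod_primeFactors_of_squarefree hsf]
  refine Finset.prod_primes_dvd _ (fun p hp => (Nat.prime_of_mem_primeFactors hp).prime) ?_
  intro p hp
  have e : (m + c0) ^ 2 + 1 = m * (m + 2 * c0) + (c0 ^ 2 + 1) := by ring
  rw [e]
  exact dvd_add (Dvd.dvd.mul_right (hm p hp) _) (h p hp)

/-- a common root of `- 1` -/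
theorem exists_c0 (K0 : ℕ) : ∃ c0 : ℕ, ∀ p : ℕ, p.Prime → p % 4 = 1 → p ≤ K0 → p ∣ c0 ^ 2 + 1 := by
  have hr : ∀ p : ℕ, ∃ r : ℕ, p.Prime → p % 4 = 1 → p ∣ r ^ 2 + 1 := by
    intro p
    by_cases hp : p.Prime ∧ p % 4 = 1
    · have : Fact p.Prime := ⟨hp.1⟩
      have hsq : IsSquare (-1 : ZMod p) := ZMod.exists_sq_eq_neg_one_iff.mpr (by omega)
      obtain ⟨y, hy⟩ := hsq
      refine ⟨y.val, fun _ _ => ?_⟩
      rw [← ZMod.natCast_eq_zero_iff]
      push_cast
      rw [ZMod.natCast_zmod_val]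
      linear_combination -hy
    · exact ⟨0, fun h1 h2 => absurd ⟨h1, h2⟩ hp⟩
  choose r hr using hr
  let t : Finset ℕ := (range (K0 + 1)).filter Nat.Prime
  have ht : ∀ p ∈ t, (fun p : ℕ => p) p ≠ 0 := by
    intro p hp
    exact (Finset.mem_filter.mp hp).2.ne_zero
  have hpw : Set.Pairwise (t : Set ℕ) (Function.onFun Nat.Coprime (fun p : ℕ => p)) := by
    intro p hp p' hp' hne
    have h1 := (Finset.mem_filter.mp (Finset.mem_coe.mp hp)).2
    have h2 := (Finset.mem_filter.mp (Finset.mem_coe.mp hp')).2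
    exact (Nat.coprime_primes h1 h2).mpr hne
  obtain ⟨i, hi⟩ := Nat.chineseRemainderOfFinset r (fun p : ℕ => p) t ht hpw
  refine ⟨i, fun p hp h4 hpK => ?_⟩
  have hm : p ∈ t := Finset.mem_filter.mpr ⟨Finset.mem_range.mpr (by omega), hp⟩
  have hmod := hi p hm
  have h2 : i ^ 2 + 1 ≡ (r p) ^ 2 + 1 [MOD p] := by
    gcongr
  exact (h2.dvd_iff (dvd_refl p)).mpr (hr p hp h4)

/-- few indices are close to the right end of one of the two halves -/
theorem card_bad (H K0 : ℕ) (hH : 0 < H) [NeZero (2 * H)] :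
    (Finset.univ.filter (fun i : ZMod (2 * H) => H ≤ i.val % H + K0)).card ≤ 2 * K0 := by
  classical
  have h1 : (Finset.univ.filter (fun i : ZMod (2 * H) => H ≤ i.val % H + K0)).card ≤
      (Finset.Ico (H - K0) H ∪ Finset.Ico (2 * H - K0) (2 * H)).card := by
    refine Finset.card_le_card_of_injOn (fun i => i.val) ?_ ?_
    · intro i hi
      have hi' := (Finset.mem_filter.mp (Finset.mem_coe.mp hi)).2
      have hlt := ZMod.val_lt i
      rw [Finset.mem_coe]
      change i.val ∈ _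
      rw [Finset.mem_union, Finset.mem_Ico, Finset.mem_Ico]
      rcases lt_or_ge i.val H with h | h
      · left
        rw [Nat.mod_eq_of_lt h] at hi'
        omega
      · right
        have h2 : i.val % H = i.val - H := by
          rw [Nat.mod_eq_sub_mod h, Nat.mod_eq_of_lt (by omega)]
        rw [h2] at hi'
        omega
    · intro i _ j _ hij
      exact ZMod.val_injective _ hij
  refine h1.trans ((Finset.card_union_le _ _).trans ?_)
  rw [Nat.card_Ico, Nat.card_Ico]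
  omega

theorem certB_even (q : ℕ) (hq : 0 < q) (a : ℤ) (ha : Even a) :
    CertB q ({(a : ZMod q)} : Set (ZMod q)) := by
  classical
  have : NeZero q := ⟨hq.ne'⟩
  obtain ⟨K0, Pi, ε0, hPi, hε, hD⟩ := evenD q a ha
  obtain ⟨c0, hc0⟩ := exists_c0 K0
  obtain ⟨M, hM⟩ := exists_nat_gt ((K0 : ℝ) / ε0)
  have hM0 : 0 < M := by
    have h1 : (0 : ℝ) ≤ (K0 : ℝ) / ε0 := div_nonneg (Nat.cast_nonneg _) hε.le
    have h2 : (0 : ℝ) < M := lt_of_le_of_lt h1 hM
    exact_mod_cast h2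
  obtain ⟨H, hH⟩ : ∃ H : ℕ, H = Pi * K0.factorial * M := ⟨_, rfl⟩
  have hf0 := Nat.factorial_pos K0
  have hH0 : 0 < H := by
    rw [hH]
    positivity
  have hMH : M ≤ H := by
    rw [hH]
    exact Nat.le_mul_of_pos_left _ (by positivity)
  have : NeZero (2 * H) := ⟨by omega⟩
  have hN : Pi ∣ 2 * H := by
    rw [hH]
    exact ⟨2 * (K0.factorial * M), by ring⟩
  have hpH : ∀ p : ℕ, p.Prime → p ≤ K0 → p ∣ H := by
    intro p hp hpK
    have h1 : p ∣ K0.factorial := (hp.dvd_factorial).mpr hpK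
    rw [hH]
    exact Dvd.dvd.mul_right (Dvd.dvd.mul_left h1 _) _
  refine ⟨(range (2 * H)).image (vec c0), ?_, ?_⟩
  · intro u hu
    obtain ⟨J, -, rfl⟩ := Finset.mem_image.mp hu
    exact vec_props c0 J
  intro X
  have hlow := hD (2 * H) hN (fun i => X (vec c0 i.val))
  -- a good index away from the ends
  obtain ⟨i, ⟨k, hkK, hsf, hk4, hDv, hor⟩, hi⟩ : ∃ i : ZMod (2 * H),
      (∃ k : ℕ, k ≤ K0 ∧ Squarefree k ∧ (∀ p ∈ k.primeFactors, p % 4 = 1) ∧ Dv (fun _ => 0) k i ∧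
        (X (vec c0 i.val) + X (vec c0 (i + (k : ZMod (2 * H))).val) -
            2 * (k.primeFactors.card : ZMod q) = a ∨
          X (vec c0 (2 * i).val) + X (vec c0 (2 * (i + (k : ZMod (2 * H)))).val) -
            2 * (k.primeFactors.card : ZMod q) = a)) ∧ i.val % H + K0 < H := by
    by_contra hcon
    push Not at hcon
    have h1 : Av (fun i : ZMod (2 * H) => ind (∃ k : ℕ, k ≤ K0 ∧ Squarefree k ∧
        (∀ p ∈ k.primeFactors, p % 4 = 1) ∧ Dv (fun _ => 0) k i ∧
        (X (vec c0 i.val) + X (vec c0 (i + (k : ZMod (2 * H))).val) -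
            2 * (k.primeFactors.card : ZMod q) = a ∨
          X (vec c0 (2 * i).val) + X (vec c0 (2 * (i + (k : ZMod (2 * H)))).val) -
            2 * (k.primeFactors.card : ZMod q) = a))) ≤
        Av (fun i : ZMod (2 * H) => ind (H ≤ i.val % H + K0)) := by
      apply Av_mono
      intro i
      apply ind_mono
      rintro ⟨k, h1, h2, h3, h4, h5⟩
      exact hcon i ⟨k, h1, h2, h3, h4, h5⟩
    have h2 : Av (fun i : ZMod (2 * H) => ind (H ≤ i.val % H + K0)) =
        ((Finset.univ.filter (fun i : ZMod (2 * H) => H ≤ i.val % H + K0)).card : ℝ) / (2 * H : ℕ) := by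
      unfold Av
      congr 1
      rw [Finset.card_filter]
      push_cast
      refine Finset.sum_congr rfl fun i _ => ?_
      by_cases h : H ≤ i.val % H + K0
      · rw [ind_of h, if_pos h]
      · rw [ind_not h, if_neg h]
    have h3 := card_bad H K0 hH0
    have h4 : ε0 ≤ ((Finset.univ.filter
        (fun i : ZMod (2 * H) => H ≤ i.val % H + K0)).card : ℝ) / (2 * H : ℕ) := by
      rw [← h2]
      exact hlow.trans h1
    have hHR : (0 : ℝ) < ((2 * H : ℕ) : ℝ) := by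
      have : 0 < 2 * H := by omega
      exact_mod_cast this
    rw [le_div_iff₀ hHR] at h4
    have h5 : ((Finset.univ.filter
        (fun i : ZMod (2 * H) => H ≤ i.val % H + K0)).card : ℝ) ≤ 2 * K0 := by exact_mod_cast h3
    have h6 : (M : ℝ) ≤ H := by exact_mod_cast hMH
    rw [div_lt_iff₀ hε] at hM
    have h7 : (M : ℝ) * ε0 ≤ H * ε0 := mul_le_mul_of_nonneg_right h6 hε.le
    push_cast at h4
    nlinarith
  have hk0 : k ≠ 0 := hsf.ne_zero
  have hpk : ∀ p ∈ k.primeFactors, p.Prime ∧ p ≤ K0 ∧ p % 4 = 1 ∧ p ∣ i.val := by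
    intro p hp
    have h1 := Nat.prime_of_mem_primeFactors hp
    have h2 := Nat.le_of_dvd (Nat.pos_of_ne_zero hk0) (Nat.dvd_of_mem_primeFactors hp)
    refine ⟨h1, h2.trans hkK, hk4 p hp, ?_⟩
    exact (Nat.modEq_zero_iff_dvd).mp (hDv p hp)
  have hc : ∀ p ∈ k.primeFactors, p ∣ c0 ^ 2 + 1 := fun p hp =>
    hc0 p (hpk p hp).1 (hpk p hp).2.2.1 (hpk p hp).2.1
  have hΩ : cardFactors k = k.primeFactors.card := by
    rw [← (cardDistinctFactors_eq_cardFactors_iff_squarefree hk0).mpr hsf,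
      cardDistinctFactors_apply]
    rfl
  have hodd : ∃ l, k = 2 * l + 1 := by
    rcases Nat.even_or_odd' k with ⟨l, h | h⟩
    · exfalso
      have h1 : 2 ∈ k.primeFactors := Nat.mem_primeFactors.mpr ⟨Nat.prime_two, ⟨l, h⟩, hk0⟩
      have h2 := hk4 2 h1
      omega
    · exact ⟨l, h⟩
  have hilt : i.val < 2 * H := ZMod.val_lt i
  have hend : ∀ u v : ℤ × ℤ, ∀ J J' : ℕ, J < 2 * H → J' < 2 * H → u = vec c0 J → v = vec c0 J' →
      PairOK k u v → X u + X v - 2 * (k.primeFactors.card : ZMod q) = a →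
      ∃ u ∈ (range (2 * H)).image (vec c0), ∃ v ∈ (range (2 * H)).image (vec c0),
        dt u v ≠ 0 ∧ dt u v ∣ dp u v ∧
        X u + X v - 2 * (om (dt u v) : ZMod q) ∈ ({(a : ZMod q)} : Set (ZMod q)) := by
    intro u v J J' hJ hJ' hu hv hp hX
    refine ⟨u, ?_, v, ?_, ?_, hp.2, ?_⟩
    · rw [hu]
      exact Finset.mem_image_of_mem _ (Finset.mem_range.mpr hJ)
    · rw [hv]
      exact Finset.mem_image_of_mem _ (Finset.mem_range.mpr hJ')
    · rw [hp.1]
      intro h0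
      apply hk0
      have h1 : (k : ℤ) = 0 := by linarith
      exact_mod_cast h1
    · rw [Set.mem_singleton_iff, hp.1]
      have h3 : om (-(k : ℤ)) = cardFactors k := by
        simp [om]
      rw [h3, hΩ]
      exact hX
  rcases hor with hX | hX
  · have hlt : i.val + k < 2 * H := by
      rcases lt_or_ge i.val H with h | h
      · rw [Nat.mod_eq_of_lt h] at hi
        omega
      · have h2 : i.val % H = i.val - H := by
          rw [Nat.mod_eq_sub_mod h, Nat.mod_eq_of_lt (by omega)]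
        rw [h2] at hi
        omega
    have hval : (i + (k : ZMod (2 * H))).val = i.val + k := by
      rw [ZMod.val_add, ZMod.val_natCast, Nat.mod_eq_of_lt (a := k) (by omega), Nat.mod_eq_of_lt hlt]
    rw [hval] at hX
    refine hend _ _ i.val (i.val + k) hilt hlt rfl rfl ?_ hX
    obtain ⟨l, hl⟩ := hodd
    rcases Nat.even_or_odd' i.val with ⟨m, h | h⟩
    · rw [h, hl]
      apply pair_A
      rw [← hl]
      apply dvd_of_primes c0 k m hsf hc
      intro p hp
      obtain ⟨h1, -, h3, h4⟩ := hpk p hp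
      rw [h] at h4
      rcases (Nat.Prime.dvd_mul h1).mp h4 with h5 | h5
      · have := Nat.le_of_dvd (by norm_num) h5
        have := h1.two_le
        omega
      · exact h5
    · rw [h, hl]
      apply pair_B
      rw [← hl]
      apply dvd_of_primes c0 k (m + l + 1) hsf hc
      intro p hp
      obtain ⟨h1, -, h3, h4⟩ := hpk p hp
      have h5 : p ∣ i.val + k := dvd_add h4 (Nat.dvd_of_mem_primeFactors hp)
      have h6 : i.val + k = 2 * (m + l + 1) := by omega
      rw [h6] at h5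
      rcases (Nat.Prime.dvd_mul h1).mp h5 with h7 | h7
      · have := Nat.le_of_dvd (by norm_num) h7
        have := h1.two_le
        omega
      · exact h7
  · obtain ⟨J, hJ⟩ : ∃ J : ℕ, J = i.val % H := ⟨_, rfl⟩
    rw [← hJ] at hi
    have h2i : (2 * i).val = 2 * J := by
      have h1 : 2 * i = ((2 * i.val : ℕ) : ZMod (2 * H)) := by
        push_cast
        rw [ZMod.natCast_zmod_val]
      rw [h1, ZMod.val_natCast, Nat.mul_mod_mul_left, hJ]
    have h2k : (2 * (i + (k : ZMod (2 * H)))).val = 2 * (J + k) := by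
      have h1 : 2 * (i + (k : ZMod (2 * H))) = ((2 * (i.val + k) : ℕ) : ZMod (2 * H)) := by
        push_cast
        rw [ZMod.natCast_zmod_val]
      rw [h1, ZMod.val_natCast, Nat.mul_mod_mul_left, hJ, Nat.add_mod, ← hJ]
      rw [Nat.mod_eq_of_lt (a := k) (by omega), Nat.mod_eq_of_lt (by omega)]
    rw [h2i, h2k] at hX
    refine hend _ _ (2 * J) (2 * (J + k)) (by omega) (by omega) rfl rfl ?_ hX
    apply pair_C
    apply dvd_of_primes c0 k J hsf hc
    intro p hp
    obtain ⟨h1, h2, h3, h4⟩ := hpk p hp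
    rw [hJ]
    exact (Nat.dvd_mod_iff (hpH p h1 h2)).mpr h4

end Pool.Agent.OmEv
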