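import Pool.Agent.Lib_MP_f1a94e_ev.EvenLine
import Pool.Agent.Lib_MP_f1a94e_ev.KlE

/-!
# MP_f1a94e_nt: the certificate for an even class
-/

set_option autoImplicit false

namespace Pool.Agent.OmEv

open Finset ArithmeticFunction Pool.Agent.OmAP

/-- a common root of `x ^ 2 + 1` modulo the primes `1` modulo `4` up to `K` -/
theorem exists_root (K : ℕ) : ∃ t : ℕ, ∀ p : ℕ, p.Prime → p % 4 = 1 → p ≤ K → p ∣ t ^ 2 + 1 := by
  have hr : ∀ p : ℕ, ∃ r : ℕ, p.Prime → p % 4 = 1 → p ∣ r ^ 2 + 1 := by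
    intro p
    by_cases hp : p.Prime ∧ p % 4 = 1
    · have : Fact p.Prime := ⟨hp.1⟩
      have hsq : IsSquare (-1 : ZMod p) := ZMod.exists_sq_eq_neg_one_iff.mpr (by have := hp.2; omega)
      obtain ⟨y, hy⟩ := hsq
      refine ⟨y.val, fun _ _ => ?_⟩
      rw [← ZMod.natCast_eq_zero_iff]
      push_cast
      rw [ZMod.natCast_zmod_val]
      linear_combination -hy
    · exact ⟨0, fun h h' => absurd ⟨h, h'⟩ hp⟩
  choose r hr using hr
  let t : Finset ℕ := (range (K + 1)).filter Nat.Prime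
  have ht : ∀ p ∈ t, (fun p : ℕ => p) p ≠ 0 := by
    intro p hp
    exact (Finset.mem_filter.mp hp).2.ne_zero
  have hpw : Set.Pairwise (t : Set ℕ) (Function.onFun Nat.Coprime (fun p : ℕ => p)) := by
    intro p hp p' hp' hne
    have h1 := (Finset.mem_filter.mp (Finset.mem_coe.mp hp)).2
    have h2 := (Finset.mem_filter.mp (Finset.mem_coe.mp hp')).2
    exact (Nat.coprime_primes h1 h2).mpr hne
  obtain ⟨i, hi⟩ := Nat.chineseRemainderOfFinset r (fun p : ℕ => p) t ht hpw
  refine ⟨i, fun p hp h4 hpK => ?_⟩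
  have hm : p ∈ t := Finset.mem_filter.mpr ⟨Finset.mem_range.mpr (by omega), hp⟩
  have hmod := hi p hm
  have h2 : i ^ 2 + 1 ≡ (r p) ^ 2 + 1 [MOD p] := by
    gcongr
  exact (h2.dvd_iff (dvd_refl p)).mpr (hr p hp h4)

/-- the vector at a position -/
def vec (t j : ℕ) : ℤ × ℤ := if j % 2 = 0 then ((t : ℤ) + (j / 2 : ℕ), 1) else (2 * (t : ℤ) + j, 2)

theorem vec_even (t i : ℕ) : vec t (2 * i) = ((t : ℤ) + i, 1) := by
  unfold vec
  rw [if_pos (by omega)]
  have : 2 * i / 2 = i := by omega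
  rw [this]

theorem vec_odd (t j : ℕ) (h : j % 2 = 1) : vec t j = (2 * (t : ℤ) + j, 2) := by
  unfold vec
  rw [if_neg (by omega)]

theorem vec_two_ne (t j : ℕ) : (vec t j).2 ≠ 0 := by
  unfold vec
  split_ifs <;> norm_num

/-- EVENCERT -/
theorem evenCert (q : ℕ) (hq : 0 < q) (a : ℤ) (ha : Even a) :
    ∃ V : Finset (ℤ × ℤ), IsCertE q ({(a : ZMod q)} : Set (ZMod q)) V := by
  classical
  obtain ⟨N, K, hN⟩ := OmQ.evenLine q hq a ha
  obtain ⟨t, ht⟩ := exists_root K
  refine ⟨(range N).image (vec t), ?_, ?_⟩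
  · intro u hu
    obtain ⟨j, -, rfl⟩ := Finset.mem_image.mp hu
    have h2 := vec_two_ne t j
    refine ⟨?_, h2⟩
    simp only [nm]
    have : 0 < (vec t j).2 ^ 2 := by positivity
    nlinarith [sq_nonneg (vec t j).1]
  · intro X
    obtain ⟨j, k, e, hk, hkK, hsf, hp, hkj, he, hlt, hX⟩ := hN fun j => X (vec t j)
    have hodd : k % 2 = 1 := by
      by_contra hc
      have h2 : 2 ∣ k := by omega
      have := hp 2 (Nat.mem_primeFactors.mpr ⟨Nat.prime_two, h2, hk.ne'⟩)
      omega
    have hkt : (k : ℤ) ∣ (t : ℤ) ^ 2 + 1 := by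
      have h1 : k ∣ t ^ 2 + 1 := by
        rw [← Nat.prod_primeFactors_of_squarefree hsf]
        refine Finset.prod_primes_dvd _ (fun p hp => (Nat.prime_of_mem_primeFactors hp).prime) ?_
        intro p hpk
        exact ht p (Nat.prime_of_mem_primeFactors hpk) (hp p hpk)
          ((Nat.le_of_dvd hk (Nat.dvd_of_mem_primeFactors hpk)).trans hkK)
      exact_mod_cast h1
    have hcop : Nat.Coprime k 2 := by
      rw [Nat.coprime_comm, Nat.Prime.coprime_iff_not_dvd Nat.prime_two]
      omega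
    have hki : ∀ i : ℕ, k ∣ 2 * i → (k : ℤ) ∣ ((t : ℤ) + i) ^ 2 + 1 := by
      intro i hi
      obtain ⟨c, hc⟩ := hcop.dvd_of_dvd_mul_left hi
      obtain ⟨d, hd⟩ := hkt
      refine ⟨d + 2 * t * c + k * c ^ 2, ?_⟩
      rw [hc]
      push_cast
      linear_combination hd
    have hom : om (-(k : ℤ)) = cardFactors k := by
      simp [om]
    have hfin : ∀ u v : ℤ × ℤ, u = vec t j → v = vec t (j + e * k) → dt u v = -(k : ℤ) →
        (k : ℤ) ∣ dp u v → ∃ u ∈ (range N).image (vec t), ∃ v ∈ (range N).image (vec t),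
          dt u v ≠ 0 ∧ dt u v ∣ dp u v ∧
          X u + X v - 2 * (om (dt u v) : ZMod q) ∈ ({(a : ZMod q)} : Set (ZMod q)) := by
      intro u v hu hv hdt hdp
      refine ⟨u, ?_, v, ?_, ?_, ?_, ?_⟩
      · rw [hu]
        exact Finset.mem_image_of_mem _ (Finset.mem_range.mpr (by omega))
      · rw [hv]
        exact Finset.mem_image_of_mem _ (Finset.mem_range.mpr hlt)
      · rw [hdt]
        omega
      · rw [hdt, neg_dvd]
        exact hdp
      · rw [hdt, hom, Set.mem_singleton_iff, hu, hv]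
        have hX' : X (vec t j) + X (vec t (j + e * k)) = a + 2 * (cardFactors k : ZMod q) := hX
        linear_combination hX'
    rcases he with rfl | ⟨rfl, hev⟩
    · rcases Nat.mod_two_eq_zero_or_one j with hj | hj
      · obtain ⟨i, rfl⟩ : ∃ i, j = 2 * i := ⟨j / 2, by omega⟩
        refine hfin _ _ (vec_even t i).symm (vec_odd t (2 * i + 1 * k) (by omega)).symm ?_ ?_
        · simp only [dt]
          push_cast
          ring
        · obtain ⟨d, hd⟩ := hki i hkj
          refine ⟨2 * d + (t + i), ?_⟩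
          simp only [dp]
          push_cast
          linear_combination 2 * hd
      · obtain ⟨i, hi⟩ : ∃ i, j + 1 * k = 2 * i := ⟨(j + 1 * k) / 2, by omega⟩
        have hji : (j : ℤ) + k = 2 * i := by
          have : ((j + 1 * k : ℕ) : ℤ) = ((2 * i : ℕ) : ℤ) := by rw [hi]
          push_cast at this
          linarith
        have hk2 : k ∣ 2 * i := by
          rw [← hi]
          exact dvd_add hkj (dvd_mul_left _ _)
        refine hfin (2 * (t : ℤ) + j, 2) ((t : ℤ) + i, 1) (vec_odd t j hj).symm ?_ ?_ ?_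
        · rw [hi, vec_even]
        · simp only [dt]
          linear_combination hji
        · obtain ⟨d, hd⟩ := hki i hk2
          refine ⟨2 * d - (t + i), ?_⟩
          simp only [dp]
          linear_combination 2 * hd + ((t : ℤ) + i) * hji
    · obtain ⟨i, rfl⟩ : ∃ i, j = 2 * i := by
        obtain ⟨i, hi⟩ := hev
        exact ⟨i, by omega⟩
      have h1 : 2 * i + 2 * k = 2 * (i + k) := by ring
      refine hfin _ ((t : ℤ) + (i + k : ℕ), 1) (vec_even t i).symm ?_ ?_ ?_
      · rw [h1, vec_even]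
      · simp only [dt]
        push_cast
        ring
      · obtain ⟨d, hd⟩ := hki i hkj
        refine ⟨d + (t + i), ?_⟩
        simp only [dp]
        push_cast
        linear_combination hd

end Pool.Agent.OmEv
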