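import Pool.Agent.Lib_MP_f1a94e_ev.EvenR
import Pool.Agent.Lib_MP_f1a94e_ev.EvenCert
import Pool.Agent.Lib_MP_f1a94e_ev.AlmostR
import Pool.Agent.Lib_MP_f1a94e_q.ThmD

/-!
# MP_f1a94e_nt: the certificate for the even classes, no small odd prime factors

The vectors `(5 m + c, 1)` at the even positions `2 m` and `(5 (2 m + 1) + 2 c, 2)` at the odd positions `2 m + 1`.
-/

set_option autoImplicit false

namespace Pool.Agent.OmEv

open Finset ArithmeticFunction LibLS Pool.Agent.OmQ Pool.Agent.OmAP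

/-- the vector at the position `J` -/
def vecR (c0 J : ℕ) : ℤ × ℤ :=
  if J % 2 = 0 then (((5 * (J / 2) + c0 : ℕ) : ℤ), 1) else (((5 * J + 2 * c0 : ℕ) : ℤ), 2)

theorem vecR_even (c0 m : ℕ) : vecR c0 (2 * m) = (((5 * m + c0 : ℕ) : ℤ), 1) := by
  unfold vecR
  rw [if_pos (by omega)]
  have h : 2 * m / 2 = m := by omega
  rw [h]

theorem vecR_odd (c0 m : ℕ) :
    vecR c0 (2 * m + 1) = (((5 * (2 * m + 1) + 2 * c0 : ℕ) : ℤ), 2) := by
  unfold vecR
  rw [if_neg (by omega)]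

theorem vecR_props (c0 J : ℕ) : nm (vecR c0 J) ≠ 0 ∧ (vecR c0 J).2 ≠ 0 := by
  rcases Nat.even_or_odd' J with ⟨m, rfl | rfl⟩
  · rw [vecR_even]
    refine ⟨?_, by norm_num⟩
    simp only [nm]
    positivity
  · rw [vecR_odd]
    refine ⟨?_, by norm_num⟩
    simp only [nm]
    positivity

/-- the norm divides `(5 J + 2 c0) ^ 2 + 4` -/
theorem nm_vecR (c0 J : ℕ) : nm (vecR c0 J) ∣ (((5 * J + 2 * c0) ^ 2 + 4 : ℕ) : ℤ) := by
  rcases Nat.even_or_odd' J with ⟨m, rfl | rfl⟩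
  · rw [vecR_even]
    refine ⟨4, ?_⟩
    simp only [nm]
    push_cast
    ring
  · rw [vecR_odd]
    refine ⟨1, ?_⟩
    simp only [nm]
    push_cast
    ring

theorem pairR_C (c0 m k : ℕ) (h : 5 * k ∣ (5 * m + c0) ^ 2 + 1) :
    PairOK (5 * k) (vecR c0 (2 * m)) (vecR c0 (2 * (m + k))) := by
  rw [vecR_even, vecR_even]
  have h1 : dt (((5 * m + c0 : ℕ) : ℤ), 1) (((5 * (m + k) + c0 : ℕ) : ℤ), 1) = -((5 * k : ℕ) : ℤ) := by
    simp only [dt]
    push_cast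
    ring
  refine ⟨h1, ?_⟩
  rw [h1, neg_dvd]
  obtain ⟨c, hc⟩ := h
  have hc' : (5 * (m : ℤ) + c0) ^ 2 + 1 = 5 * k * c := by exact_mod_cast hc
  refine ⟨c + (5 * m + c0), ?_⟩
  simp only [dp]
  push_cast
  linear_combination hc'

theorem pairR_A (c0 m l : ℕ) (h : 5 * (2 * l + 1) ∣ (5 * m + c0) ^ 2 + 1) :
    PairOK (5 * (2 * l + 1)) (vecR c0 (2 * m)) (vecR c0 (2 * m + (2 * l + 1))) := by
  have e : 2 * m + (2 * l + 1) = 2 * (m + l) + 1 := by ring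
  rw [e, vecR_even, vecR_odd]
  have h1 : dt (((5 * m + c0 : ℕ) : ℤ), 1) (((5 * (2 * (m + l) + 1) + 2 * c0 : ℕ) : ℤ), 2) =
      -((5 * (2 * l + 1) : ℕ) : ℤ) := by
    simp only [dt]
    push_cast
    ring
  refine ⟨h1, ?_⟩
  rw [h1, neg_dvd]
  obtain ⟨c, hc⟩ := h
  have hc' : (5 * (m : ℤ) + c0) ^ 2 + 1 = 5 * (2 * l + 1) * c := by exact_mod_cast hc
  refine ⟨2 * c + (5 * m + c0), ?_⟩
  simp only [dp]
  push_cast
  linear_combination 2 * hc'

theorem pairR_B (c0 m l : ℕ) (h : 5 * (2 * l + 1) ∣ (5 * (m + l + 1) + c0) ^ 2 + 1) :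
    PairOK (5 * (2 * l + 1)) (vecR c0 (2 * m + 1)) (vecR c0 (2 * m + 1 + (2 * l + 1))) := by
  have e : 2 * m + 1 + (2 * l + 1) = 2 * (m + l + 1) := by ring
  rw [e, vecR_even, vecR_odd]
  have h1 : dt (((5 * (2 * m + 1) + 2 * c0 : ℕ) : ℤ), 2) (((5 * (m + l + 1) + c0 : ℕ) : ℤ), 1) =
      -((5 * (2 * l + 1) : ℕ) : ℤ) := by
    simp only [dt]
    push_cast
    ring
  refine ⟨h1, ?_⟩
  rw [h1, neg_dvd]
  obtain ⟨c, hc⟩ := h
  have hc' : (5 * ((m : ℤ) + l + 1) + c0) ^ 2 + 1 = 5 * (2 * l + 1) * c := by exact_mod_cast hc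
  refine ⟨2 * c - (5 * (m + l + 1) + c0), ?_⟩
  simp only [dp]
  push_cast
  linear_combination 2 * hc'

/-- `5 k ∣ (5 m + c0) ^ 2 + 1` from the prime factors of `k` -/
theorem dvd5_of_primes (c0 k m : ℕ) (hsf : Squarefree k) (h5 : ¬ 5 ∣ k) (hc5 : 5 ∣ c0 ^ 2 + 1)
    (h : ∀ p ∈ k.primeFactors, p ∣ c0 ^ 2 + 1)
    (hm : ∀ p ∈ k.primeFactors, p ∣ m) : 5 * k ∣ (5 * m + c0) ^ 2 + 1 := by
  have e : (5 * m + c0) ^ 2 + 1 = 5 * (m * (5 * m + 2 * c0)) + (c0 ^ 2 + 1) := by ring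
  apply Nat.Coprime.mul_dvd_of_dvd_of_dvd
  · exact (Nat.Prime.coprime_iff_not_dvd Nat.prime_five).mpr h5
  · rw [e]
    exact dvd_add (dvd_mul_right _ _) hc5
  · rw [← Nat.prod_primeFactors_of_squarefree hsf]
    refine Finset.prod_primes_dvd _ (fun p hp => (Nat.prime_of_mem_primeFactors hp).prime) ?_
    intro p hp
    rw [e]
    exact dvd_add (Dvd.dvd.mul_left (Dvd.dvd.mul_right (hm p hp) _) _) (h p hp)

/-- the condition at the position `J` -/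
def Bn (Q c0 J : ℕ) : Prop :=
  (∀ p : ℕ, p.Prime → p ≤ Q → p ≠ 2 → p ≠ 5 → ¬ p ∣ (5 * J + 2 * c0) ^ 2 + 4) ∧
    ¬ 25 ∣ (5 * J + 2 * c0) ^ 2 + 4

theorem Bn_per (Q c0 : ℕ) (h5 : 5 ≤ Q) (J : ℕ) : Bn Q c0 (J + Q.factorial) ↔ Bn Q c0 J := by
  have key : ∀ p : ℕ, p ∣ 5 * Q.factorial →
      (p ∣ (5 * (J + Q.factorial) + 2 * c0) ^ 2 + 4 ↔ p ∣ (5 * J + 2 * c0) ^ 2 + 4) := by
    intro p hp
    have h1 : (5 * (J + Q.factorial) + 2 * c0) ^ 2 + 4 =
        5 * Q.factorial * (2 * (5 * J + 2 * c0) + 5 * Q.factorial) + ((5 * J + 2 * c0) ^ 2 + 4) := by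
      ring
    rw [h1]
    exact Nat.dvd_add_right (Dvd.dvd.mul_right hp _)
  unfold Bn
  have h25 : 25 ∣ 5 * Q.factorial := by
    obtain ⟨c, hc⟩ := Nat.dvd_factorial (by norm_num : 0 < 5) h5
    exact ⟨c, by rw [hc]; ring⟩
  rw [key 25 h25]
  refine and_congr ?_ Iff.rfl
  constructor
  · intro h p hp hpQ h2 h5' hd
    exact h p hp hpQ h2 h5' ((key p (Dvd.dvd.mul_left ((hp.dvd_factorial).mpr hpQ) _)).mpr hd)
  · intro h p hp hpQ h2 h5' hd
    exact h p hp hpQ h2 h5' ((key p (Dvd.dvd.mul_left ((hp.dvd_factorial).mpr hpQ) _)).mp hd)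

/-- at most two roots -/
theorem card_two (p : ℕ) [Fact p.Prime] (h10 : (10 : ZMod p) ≠ 0) (e : ZMod p) :
    (Finset.univ.filter (fun r : ZMod p => (10 * r + e) ^ 2 + 4 = 0)).card ≤ 2 := by
  classical
  rcases (Finset.univ.filter (fun r : ZMod p => (10 * r + e) ^ 2 + 4 = 0)).eq_empty_or_nonempty with
    h | ⟨r0, hr0⟩
  · rw [h]
    simp
  · have hsub : Finset.univ.filter (fun r : ZMod p => (10 * r + e) ^ 2 + 4 = 0) ⊆
        {r0, -r0 - 2 * e / 10} := by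
      intro r hr
      have h3 := (Finset.mem_filter.mp hr).2
      have h4 := (Finset.mem_filter.mp hr0).2
      have h5 : (10 * (r - r0)) * (10 * (r + r0) + 2 * e) = 0 := by linear_combination h3 - h4
      rw [Finset.mem_insert, Finset.mem_singleton]
      rcases mul_eq_zero.mp h5 with h6 | h6
      · left
        rcases mul_eq_zero.mp h6 with h7 | h7
        · exact absurd h7 h10
        · exact sub_eq_zero.mp h7
      · right
        field_simp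
        linear_combination h6
    exact (Finset.card_le_card hsub).trans Finset.card_le_two

/-- a residue for a prime `≥ 7` -/
theorem res_big (p : ℕ) (hp : p.Prime) (h7 : 7 ≤ p) (h c0 : ℕ) : ∃ r : ℕ,
    ¬ p ∣ (5 * (2 * r) + 2 * c0) ^ 2 + 4 ∧ ¬ p ∣ (5 * (2 * r + h) + 2 * c0) ^ 2 + 4 ∧
    ¬ p ∣ (5 * (2 * (r + h)) + 2 * c0) ^ 2 + 4 := by
  classical
  have : Fact p.Prime := ⟨hp⟩
  have h10 : (10 : ZMod p) ≠ 0 := by
    intro h0
    have h1 : ((10 : ℕ) : ZMod p) = 0 := by exact_mod_cast h0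
    rw [ZMod.natCast_eq_zero_iff] at h1
    have h2 : p ∣ 2 * 5 := h1
    rcases (Nat.Prime.dvd_mul hp).mp h2 with h3 | h3
    · have := Nat.le_of_dvd (by norm_num) h3
      omega
    · have := Nat.le_of_dvd (by norm_num) h3
      omega
  obtain ⟨S, hS⟩ : ∃ S : Finset (ZMod p), S =
    Finset.univ.filter (fun r : ZMod p => (10 * r + (2 * (c0 : ZMod p))) ^ 2 + 4 = 0) ∪
    (Finset.univ.filter (fun r : ZMod p => (10 * r + (5 * (h : ZMod p) + 2 * (c0 : ZMod p))) ^ 2 + 4 = 0) ∪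
    Finset.univ.filter (fun r : ZMod p => (10 * r + (10 * (h : ZMod p) + 2 * (c0 : ZMod p))) ^ 2 + 4 = 0)) :=
    ⟨_, rfl⟩
  have hcard : S.card ≤ 6 := by
    rw [hS]
    refine (Finset.card_union_le _ _).trans ?_
    have h1 := card_two p h10 (2 * (c0 : ZMod p))
    have h2 := card_two p h10 (5 * (h : ZMod p) + 2 * (c0 : ZMod p))
    have h3 := card_two p h10 (10 * (h : ZMod p) + 2 * (c0 : ZMod p))
    have h4 := Finset.card_union_le
      (Finset.univ.filter (fun r : ZMod p => (10 * r + (5 * (h : ZMod p) + 2 * (c0 : ZMod p))) ^ 2 + 4 = 0))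
      (Finset.univ.filter (fun r : ZMod p => (10 * r + (10 * (h : ZMod p) + 2 * (c0 : ZMod p))) ^ 2 + 4 = 0))
    omega
  obtain ⟨r, hr⟩ : ∃ r : ZMod p, r ∉ S := by
    by_contra hcon
    push Not at hcon
    have h1 : (Finset.univ : Finset (ZMod p)) ⊆ S := fun r _ => hcon r
    have h2 := Finset.card_le_card h1
    rw [Finset.card_univ, ZMod.card] at h2
    omega
  rw [hS, Finset.mem_union, Finset.mem_union] at hr
  push Not at hr
  obtain ⟨r1, r2, r3⟩ := hr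
  simp only [Finset.mem_filter, Finset.mem_univ, true_and] at r1 r2 r3
  refine ⟨r.val, ?_, ?_, ?_⟩
  · intro hd
    apply r1
    rw [← ZMod.natCast_eq_zero_iff] at hd
    push_cast at hd
    rw [ZMod.natCast_zmod_val] at hd
    linear_combination hd
  · intro hd
    apply r2
    rw [← ZMod.natCast_eq_zero_iff] at hd
    push_cast at hd
    rw [ZMod.natCast_zmod_val] at hd
    linear_combination hd
  · intro hd
    apply r3
    rw [← ZMod.natCast_eq_zero_iff] at hd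
    push_cast at hd
    rw [ZMod.natCast_zmod_val] at hd
    linear_combination hd

theorem dec5 : ∀ c w h : ZMod 5, c ≠ 0 → ∃ r : ZMod 5, 2 * r * c + w ≠ 0 ∧
    (2 * r + h) * c + w ≠ 0 ∧ 2 * (r + h) * c + w ≠ 0 := by
  decide

/-- a residue modulo `5` -/
theorem res_five (h c0 : ℕ) (hc : 5 ∣ c0 ^ 2 + 1) : ∃ r : ℕ,
    ¬ 25 ∣ (5 * (2 * r) + 2 * c0) ^ 2 + 4 ∧ ¬ 25 ∣ (5 * (2 * r + h) + 2 * c0) ^ 2 + 4 ∧
    ¬ 25 ∣ (5 * (2 * (r + h)) + 2 * c0) ^ 2 + 4 := by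
  obtain ⟨w, hw⟩ := hc
  have hc0 : (c0 : ZMod 5) ≠ 0 := by
    intro h0
    rw [ZMod.natCast_eq_zero_iff] at h0
    obtain ⟨c, rfl⟩ := h0
    have h1 : (5 * c) ^ 2 + 1 = 5 * (5 * c ^ 2) + 1 := by ring
    omega
  obtain ⟨r, r1, r2, r3⟩ := dec5 (c0 : ZMod 5) (w : ZMod 5) (h : ZMod 5) hc0
  have key : ∀ x : ℕ, 25 ∣ (5 * x + 2 * c0) ^ 2 + 4 → ((x : ZMod 5) * c0 + w = 0) := by
    intro x hx
    have e : (5 * x + 2 * c0) ^ 2 + 4 = 5 * (5 * x ^ 2 + 4 * (x * c0 + w)) := by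
      have : (5 * x + 2 * c0) ^ 2 + 4 = 25 * x ^ 2 + 20 * (x * c0) + 4 * (c0 ^ 2 + 1) := by ring
      rw [this, hw]
      ring
    rw [e] at hx
    have h1 : 5 ∣ 5 * x ^ 2 + 4 * (x * c0 + w) := by
      obtain ⟨d, hd⟩ := hx
      exact ⟨d, by omega⟩
    have h2 : 5 ∣ 4 * (x * c0 + w) := (Nat.dvd_add_right (dvd_mul_right 5 (x ^ 2))).mp h1
    have h3 : 5 ∣ x * c0 + w := by
      rcases (Nat.Prime.dvd_mul Nat.prime_five).mp h2 with h4 | h4
      · norm_num at h4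
      · exact h4
    have h4 : ((x * c0 + w : ℕ) : ZMod 5) = 0 := (ZMod.natCast_eq_zero_iff _ _).mpr h3
    push_cast at h4
    exact h4
  refine ⟨r.val, ?_, ?_, ?_⟩
  · intro hd
    have h1 := key _ hd
    apply r1
    push_cast at h1
    rw [ZMod.natCast_zmod_val] at h1
    exact h1
  · intro hd
    have h1 := key _ hd
    apply r2
    push_cast at h1
    rw [ZMod.natCast_zmod_val] at h1
    exact h1
  · intro hd
    have h1 := key _ hd
    apply r3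
    push_cast at h1
    rw [ZMod.natCast_zmod_val] at h1
    exact h1

theorem three_ndvd (x : ℕ) : ¬ 3 ∣ x ^ 2 + 4 := by
  intro hd
  have hm : (x ^ 2 + 4) % 3 = 0 := Nat.mod_eq_zero_of_dvd hd
  have h3 : x % 3 = 0 ∨ x % 3 = 1 ∨ x % 3 = 2 := by omega
  rcases h3 with h3 | h3 | h3 <;> simp [Nat.add_mod, Nat.pow_mod, h3] at hm

/-- three good positions -/
theorem exists_three (Q c0 h : ℕ) (h5 : 5 ≤ Q) (hc : 5 ∣ c0 ^ 2 + 1) : ∃ i : ℕ,
    Bn Q c0 (2 * i) ∧ Bn Q c0 (2 * i + h) ∧ Bn Q c0 (2 * (i + h)) := by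
  have hr : ∀ p : ℕ, ∃ r : ℕ, p.Prime → (p ≠ 2 → p ≠ 5 →
      ¬ p ∣ (5 * (2 * r) + 2 * c0) ^ 2 + 4 ∧ ¬ p ∣ (5 * (2 * r + h) + 2 * c0) ^ 2 + 4 ∧
      ¬ p ∣ (5 * (2 * (r + h)) + 2 * c0) ^ 2 + 4) ∧ (p = 5 →
      ¬ 25 ∣ (5 * (2 * r) + 2 * c0) ^ 2 + 4 ∧ ¬ 25 ∣ (5 * (2 * r + h) + 2 * c0) ^ 2 + 4 ∧
      ¬ 25 ∣ (5 * (2 * (r + h)) + 2 * c0) ^ 2 + 4) := by
    intro p
    by_cases hp : p.Prime
    · rcases lt_or_ge p 7 with h7 | h7
      · by_cases hp5 : p = 5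
        · obtain ⟨r, hr⟩ := res_five h c0 hc
          exact ⟨r, fun _ => ⟨fun _ h => absurd hp5 h, fun _ => hr⟩⟩
        · refine ⟨0, fun _ => ⟨fun h2 _ => ?_, fun h => absurd h hp5⟩⟩
          have h3 : p = 3 := by
            have h2' := hp.two_le
            interval_cases p
            · exact absurd rfl h2
            · rfl
            · exact absurd hp (by norm_num)
            · exact absurd rfl hp5
            · exact absurd hp (by norm_num)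
          subst h3
          exact ⟨three_ndvd _, three_ndvd _, three_ndvd _⟩
      · obtain ⟨r, hr⟩ := res_big p hp h7 h c0
        exact ⟨r, fun _ => ⟨fun _ _ => hr, fun h => by omega⟩⟩
    · exact ⟨0, fun h => absurd h hp⟩
  choose r hr using hr
  let t : Finset ℕ := (range (Q + 1)).filter Nat.Prime
  have ht : ∀ p ∈ t, (fun p : ℕ => p) p ≠ 0 := by
    intro p hp
    exact (Finset.mem_filter.mp hp).2.ne_zero
  have hpw : Set.Pairwise (t : Set ℕ) (Function.onFun Nat.Coprime (fun p : ℕ => p)) := by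
    intro p hp p' hp' hne
    have h1 := (Finset.mem_filter.mp (Finset.mem_coe.mp hp)).2
    have h2 := (Finset.mem_filter.mp (Finset.mem_coe.mp hp')).2
    exact (Nat.coprime_primes h1 h2).mpr hne
  obtain ⟨i, hi⟩ := Nat.chineseRemainderOfFinset r (fun p : ℕ => p) t ht hpw
  have hmod : ∀ p : ℕ, p.Prime → p ≤ Q → i ≡ r p [MOD p] := by
    intro p hp hpQ
    exact hi p (Finset.mem_filter.mpr ⟨Finset.mem_range.mpr (by omega), hp⟩)
  have hmod25 : 5 * i ≡ 5 * r 5 [MOD 25] := by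
    have h1 := hmod 5 Nat.prime_five h5
    have h2 := Nat.ModEq.mul_left' 5 h1
    exact h2
  refine ⟨i, ⟨?_, ?_⟩, ⟨?_, ?_⟩, ⟨?_, ?_⟩⟩
  · intro p hp hpQ h2 h5' hd
    have h1 : (5 * (2 * i) + 2 * c0) ^ 2 + 4 ≡ (5 * (2 * r p) + 2 * c0) ^ 2 + 4 [MOD p] := by
      have := hmod p hp hpQ
      gcongr
    exact ((hr p hp).1 h2 h5').1 ((h1.dvd_iff (dvd_refl p)).mp hd)
  · intro hd
    have h1 : (2 * (5 * i) + 2 * c0) ^ 2 + 4 ≡ (2 * (5 * r 5) + 2 * c0) ^ 2 + 4 [MOD 25] := by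
      gcongr
    have e1 : 2 * (5 * i) = 5 * (2 * i) := by ring
    have e2 : 2 * (5 * r 5) = 5 * (2 * r 5) := by ring
    rw [e1, e2] at h1
    exact ((hr 5 Nat.prime_five).2 rfl).1 ((h1.dvd_iff (dvd_refl 25)).mp hd)
  · intro p hp hpQ h2 h5' hd
    have h1 : (5 * (2 * i + h) + 2 * c0) ^ 2 + 4 ≡ (5 * (2 * r p + h) + 2 * c0) ^ 2 + 4 [MOD p] := by
      have := hmod p hp hpQ
      gcongr
    exact ((hr p hp).1 h2 h5').2.1 ((h1.dvd_iff (dvd_refl p)).mp hd)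
  · intro hd
    have h1 : (2 * (5 * i) + 5 * h + 2 * c0) ^ 2 + 4 ≡
        (2 * (5 * r 5) + 5 * h + 2 * c0) ^ 2 + 4 [MOD 25] := by
      gcongr
    have e1 : 2 * (5 * i) + 5 * h = 5 * (2 * i + h) := by ring
    have e2 : 2 * (5 * r 5) + 5 * h = 5 * (2 * r 5 + h) := by ring
    rw [e1, e2] at h1
    exact ((hr 5 Nat.prime_five).2 rfl).2.1 ((h1.dvd_iff (dvd_refl 25)).mp hd)
  · intro p hp hpQ h2 h5' hd
    have h1 : (5 * (2 * (i + h)) + 2 * c0) ^ 2 + 4 ≡ (5 * (2 * (r p + h)) + 2 * c0) ^ 2 + 4 [MOD p] := by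
      have := hmod p hp hpQ
      gcongr
    exact ((hr p hp).1 h2 h5').2.2 ((h1.dvd_iff (dvd_refl p)).mp hd)
  · intro hd
    have h1 : (2 * (5 * i) + 10 * h + 2 * c0) ^ 2 + 4 ≡
        (2 * (5 * r 5) + 10 * h + 2 * c0) ^ 2 + 4 [MOD 25] := by
      gcongr
    have e1 : 2 * (5 * i) + 10 * h = 5 * (2 * (i + h)) := by ring
    have e2 : 2 * (5 * r 5) + 10 * h = 5 * (2 * (r 5 + h)) := by ring
    rw [e1, e2] at h1
    exact ((hr 5 Nat.prime_five).2 rfl).2.2 ((h1.dvd_iff (dvd_refl 25)).mp hd)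

/-- the quotient has no small odd prime factor -/
theorem sm_of_Bn (Q c0 J J' k : ℕ) (m0 : ℤ) (hB : Bn Q c0 J) (hB' : Bn Q c0 J')
    (hp : PairOK (5 * k) (vecR c0 J) (vecR c0 J'))
    (hm0 : dp (vecR c0 J) (vecR c0 J') = dt (vecR c0 J) (vecR c0 J') * m0) :
    Sm Q (m0.natAbs ^ 2 + 1) := by
  intro p hpp hpd
  by_contra hcon
  push Not at hcon
  obtain ⟨hp2, hpQ⟩ := hcon
  have hd : (p : ℤ) ∣ m0 ^ 2 + 1 := by
    have h1 : ((p : ℕ) : ℤ) ∣ ((m0.natAbs ^ 2 + 1 : ℕ) : ℤ) := by exact_mod_cast hpd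
    push_cast at h1
    rw [sq_abs] at h1
    exact h1
  have hmain : nm (vecR c0 J) * nm (vecR c0 J') = (5 * k) ^ 2 * (m0 ^ 2 + 1) := by
    have h4 := dp_sq_add_dt_sq (vecR c0 J) (vecR c0 J')
    rw [hm0, hp.1] at h4
    push_cast at h4
    linear_combination -h4
  by_cases hp5 : p = 5
  · subst hp5
    obtain ⟨c, hc⟩ := hd
    have h125 : (125 : ℤ) ∣ nm (vecR c0 J) * nm (vecR c0 J') := by
      rw [hmain]
      refine ⟨k ^ 2 * c, ?_⟩
      push_cast at hc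
      rw [hc]
      ring
    have key : ∀ J, Bn Q c0 J → ¬ (25 : ℤ) ∣ nm (vecR c0 J) := by
      intro J hB hd
      have h1 := hd.trans (nm_vecR c0 J)
      exact hB.2 (by exact_mod_cast h1)
    have n1 := key J hB
    have n2 := key J' hB'
    have h5p : Prime (5 : ℤ) := Int.prime_iff_natAbs_prime.mpr (by norm_num)
    have aux : ∀ x y : ℤ, (125 : ℤ) ∣ x * y → ¬ (25 : ℤ) ∣ x → ¬ (25 : ℤ) ∣ y → False := by
      intro x y hxy hx hy
      have h1 : (5 : ℤ) ∣ x * y := (by norm_num : (5 : ℤ) ∣ 125).trans hxy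
      have h2 : (5 : ℤ) ∣ x := by
        by_contra hn
        have hco : IsCoprime (25 : ℤ) x := by
          have h3 : IsCoprime (5 : ℤ) x := (Prime.coprime_iff_not_dvd h5p).mpr hn
          have h4 : IsCoprime ((5 : ℤ) ^ 2) x := h3.pow_left
          norm_num at h4
          exact h4
        exact hy (hco.dvd_of_dvd_mul_left ((by norm_num : (25 : ℤ) ∣ 125).trans hxy))
      have h3 : (5 : ℤ) ∣ y := by
        by_contra hn
        have hco : IsCoprime (25 : ℤ) y := by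
          have h3 : IsCoprime (5 : ℤ) y := (Prime.coprime_iff_not_dvd h5p).mpr hn
          have h4 : IsCoprime ((5 : ℤ) ^ 2) y := h3.pow_left
          norm_num at h4
          exact h4
        exact hx (hco.dvd_of_dvd_mul_right ((by norm_num : (25 : ℤ) ∣ 125).trans hxy))
      obtain ⟨x', rfl⟩ := h2
      obtain ⟨y', rfl⟩ := h3
      obtain ⟨d, hd⟩ := hxy
      have h4 : (5 : ℤ) ∣ x' * y' := ⟨d, by linarith⟩
      rcases h5p.dvd_or_dvd h4 with ⟨e, rfl⟩ | ⟨e, rfl⟩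
      · exact hx ⟨e, by ring⟩
      · exact hy ⟨e, by ring⟩
    exact aux _ _ h125 n1 n2
  · have hpprime : Prime (p : ℤ) := Nat.prime_iff_prime_int.mp hpp
    have h1 : (p : ℤ) ∣ nm (vecR c0 J) * nm (vecR c0 J') := by
      rw [hmain]
      exact hd.mul_left _
    rcases hpprime.dvd_or_dvd h1 with h2 | h2
    · have h3 := h2.trans (nm_vecR c0 J)
      exact hB.1 p hpp hpQ hp2 hp5 (by exact_mod_cast h3)
    · have h3 := h2.trans (nm_vecR c0 J')
      exact hB'.1 p hpp hpQ hp2 hp5 (by exact_mod_cast h3)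

end Pool.Agent.OmEv
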