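import Pool.Agent.Lib_MP_f1a94e_ev.EvenCertR

/-!
# MP_f1a94e_nt: the certificate for the even classes, no small odd prime factors (assembly)
-/

set_option autoImplicit false

namespace Pool.Agent.OmEv

open Finset ArithmeticFunction LibLS Pool.Agent.OmQ Pool.Agent.OmAP

theorem certR_even (q : ℕ) (hq : 0 < q) (a : ℤ) (ha : Even a) (P0 : ℕ) :
    CertR q ({(a : ZMod q)} : Set (ZMod q)) P0 := by
  classical
  have : NeZero q := ⟨hq.ne'⟩
  obtain ⟨Q, hQ⟩ : ∃ Q : ℕ, Q = P0 + 5 := ⟨_, rfl⟩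
  have hQ5 : 5 ≤ Q := by omega
  obtain ⟨b, hb⟩ : ∃ b : ℕ, b = Q.factorial := ⟨_, rfl⟩
  have hb0 : 0 < b := by
    rw [hb]
    exact Nat.factorial_pos Q
  have ha2 : Even (a + 2) := ha.add (by decide)
  obtain ⟨K0, Pi, ε0, hPi, hbPi, hε, hD⟩ := evenR q (a + 2) ha2 b hb0
  obtain ⟨c0, hc0⟩ := exists_c0 (K0 + Q)
  have hc5 : 5 ∣ c0 ^ 2 + 1 := hc0 5 Nat.prime_five (by norm_num) (by omega)
  obtain ⟨M, hM⟩ := exists_nat_gt ((K0 : ℝ) / ε0)
  have hM0 : 0 < M := by
    have h1 : (0 : ℝ) ≤ (K0 : ℝ) / ε0 := div_nonneg (Nat.cast_nonneg _) hε.le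
    have h2 : (0 : ℝ) < M := lt_of_le_of_lt h1 hM
    exact_mod_cast h2
  obtain ⟨H, hH⟩ : ∃ H : ℕ, H = Pi * K0.factorial * M := ⟨_, rfl⟩
  have hf0 := Nat.factorial_pos K0
  have hH0 : 0 < H := by
    rw [hH]
    positivity
  have hMH : M ≤ H := by
    rw [hH]
    exact Nat.le_mul_of_pos_left _ (by positivity)
  have : NeZero (2 * H) := ⟨by omega⟩
  have hN : Pi ∣ 2 * H := by
    rw [hH]
    exact ⟨2 * (K0.factorial * M), by ring⟩
  have hbN : b ∣ 2 * H := hbPi.trans hN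
  have hpH : ∀ p : ℕ, p.Prime → p ≤ K0 → p ∣ H := by
    intro p hp hpK
    have h1 : p ∣ K0.factorial := (hp.dvd_factorial).mpr hpK
    rw [hH]
    exact Dvd.dvd.mul_right (Dvd.dvd.mul_left h1 _) _
  refine ⟨(range (2 * H)).image (vecR c0), ?_, ?_⟩
  · intro u hu
    obtain ⟨J, -, rfl⟩ := Finset.mem_image.mp hu
    exact vecR_props c0 J
  intro X
  -- the condition on the positions
  have hBper : ∀ J : ℕ, Bn Q c0 (J + b) ↔ Bn Q c0 J := by
    intro J
    rw [hb]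
    exact Bn_per Q c0 hQ5 J
  have hBmod : ∀ m n : ℕ, m ≡ n [MOD b] → (Bn Q c0 m ↔ Bn Q c0 n) := fun m n h => per_iff hBper h
  have hB1 : ∀ i : ZMod (2 * H), Bn Q c0 (i + (b : ZMod (2 * H))).val ↔ Bn Q c0 i.val := by
    intro i
    refine (hBmod _ _ (DecAux.val_modEq b hbN i b)).trans (hBper _)
  have hB2 : ∀ h : ℕ, h.Coprime b → ∃ i : ZMod (2 * H), Bn Q c0 (2 * i).val ∧
      Bn Q c0 (2 * i + (h : ZMod (2 * H))).val ∧ Bn Q c0 (2 * (i + (h : ZMod (2 * H)))).val := by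
    intro h _
    obtain ⟨i, h1, h2, h3⟩ := exists_three Q c0 h hQ5 hc5
    refine ⟨(i : ZMod (2 * H)), ?_, ?_, ?_⟩
    · have e : 2 * (i : ZMod (2 * H)) = ((2 * i : ℕ) : ZMod (2 * H)) := by push_cast; rfl
      rw [e, ZMod.val_natCast]
      exact (hBmod _ _ ((Nat.mod_modEq _ _).of_dvd hbN)).mpr h1
    · have e : 2 * (i : ZMod (2 * H)) + (h : ZMod (2 * H)) = ((2 * i + h : ℕ) : ZMod (2 * H)) := by
        push_cast; rfl
      rw [e, ZMod.val_natCast]
      exact (hBmod _ _ ((Nat.mod_modEq _ _).of_dvd hbN)).mpr h2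
    · have e : 2 * ((i : ZMod (2 * H)) + (h : ZMod (2 * H))) = ((2 * (i + h) : ℕ) : ZMod (2 * H)) := by
        push_cast; rfl
      rw [e, ZMod.val_natCast]
      exact (hBmod _ _ ((Nat.mod_modEq _ _).of_dvd hbN)).mpr h3
  have hlow := hD (2 * H) hN (fun i => X (vecR c0 i.val)) (fun i => Bn Q c0 i.val) hB1 hB2
  -- a good index away from the ends
  obtain ⟨i, ⟨k, hkK, hsf, hk4, hDv, hor⟩, hi⟩ : ∃ i : ZMod (2 * H),
      (∃ k : ℕ, k ≤ K0 ∧ Squarefree k ∧ (∀ p ∈ k.primeFactors, p % 4 = 1 ∧ ¬ p ∣ b) ∧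
        Dv (fun _ => 0) k i ∧
        ((Bn Q c0 i.val ∧ Bn Q c0 (i + (k : ZMod (2 * H))).val ∧
          X (vecR c0 i.val) + X (vecR c0 (i + (k : ZMod (2 * H))).val) -
            2 * (k.primeFactors.card : ZMod q) = ((a + 2 : ℤ) : ZMod q)) ∨
        (Bn Q c0 (2 * i).val ∧ Bn Q c0 (2 * (i + (k : ZMod (2 * H)))).val ∧
          X (vecR c0 (2 * i).val) + X (vecR c0 (2 * (i + (k : ZMod (2 * H)))).val) -
            2 * (k.primeFactors.card : ZMod q) = ((a + 2 : ℤ) : ZMod q)))) ∧ i.val % H + K0 < H := by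
    by_contra hcon
    push Not at hcon
    have h1 := hlow.trans (Av_mono (g := fun i : ZMod (2 * H) => ind (H ≤ i.val % H + K0)) (fun i => by
      apply ind_mono
      intro h
      exact hcon i h))
    have h2 : Av (fun i : ZMod (2 * H) => ind (H ≤ i.val % H + K0)) =
        ((Finset.univ.filter (fun i : ZMod (2 * H) => H ≤ i.val % H + K0)).card : ℝ) / (2 * H : ℕ) := by
      unfold Av
      congr 1
      rw [Finset.card_filter]
      push_cast
      refine Finset.sum_congr rfl fun i _ => ?_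
      by_cases h : H ≤ i.val % H + K0
      · rw [ind_of h, if_pos h]
      · rw [ind_not h, if_neg h]
    have h3 := card_bad H K0 hH0
    have h4 : ε0 ≤ ((Finset.univ.filter
        (fun i : ZMod (2 * H) => H ≤ i.val % H + K0)).card : ℝ) / (2 * H : ℕ) := by
      rw [← h2]
      exact h1
    have hHR : (0 : ℝ) < ((2 * H : ℕ) : ℝ) := by
      have : 0 < 2 * H := by omega
      exact_mod_cast this
    rw [le_div_iff₀ hHR] at h4
    have h5 : ((Finset.univ.filter
        (fun i : ZMod (2 * H) => H ≤ i.val % H + K0)).card : ℝ) ≤ 2 * K0 := by exact_mod_cast h3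
    have h6 : (M : ℝ) ≤ H := by exact_mod_cast hMH
    rw [div_lt_iff₀ hε] at hM
    have h7 : (M : ℝ) * ε0 ≤ H * ε0 := mul_le_mul_of_nonneg_right h6 hε.le
    push_cast at h4
    nlinarith
  have hk0 : k ≠ 0 := hsf.ne_zero
  have hpk : ∀ p ∈ k.primeFactors, p.Prime ∧ p ≤ K0 ∧ p % 4 = 1 ∧ p ∣ i.val := by
    intro p hp
    have h1 := Nat.prime_of_mem_primeFactors hp
    have h2 := Nat.le_of_dvd (Nat.pos_of_ne_zero hk0) (Nat.dvd_of_mem_primeFactors hp)
    refine ⟨h1, h2.trans hkK, (hk4 p hp).1, ?_⟩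
    exact (Nat.modEq_zero_iff_dvd).mp (hDv p hp)
  have hk5 : ¬ 5 ∣ k := by
    intro hd
    have h1 : 5 ∈ k.primeFactors := Nat.mem_primeFactors.mpr ⟨Nat.prime_five, hd, hk0⟩
    apply (hk4 5 h1).2
    rw [hb]
    exact Nat.dvd_factorial (by norm_num) hQ5
  have hc : ∀ p ∈ k.primeFactors, p ∣ c0 ^ 2 + 1 := fun p hp =>
    hc0 p (hpk p hp).1 (hpk p hp).2.2.1 ((hpk p hp).2.1.trans (Nat.le_add_right _ _))
  have hΩ : cardFactors (5 * k) = k.primeFactors.card + 1 := by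
    have h1 : cardFactors k = k.primeFactors.card := by
      rw [← (cardDistinctFactors_eq_cardFactors_iff_squarefree hk0).mpr hsf,
        cardDistinctFactors_apply]
      rfl
    rw [cardFactors_mul (by norm_num) hk0, h1, cardFactors_apply_prime Nat.prime_five, add_comm]
  have hodd : ∃ l, k = 2 * l + 1 := by
    rcases Nat.even_or_odd' k with ⟨l, h | h⟩
    · exfalso
      have h1 : 2 ∈ k.primeFactors := Nat.mem_primeFactors.mpr ⟨Nat.prime_two, ⟨l, h⟩, hk0⟩
      have h2 := (hk4 2 h1).1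
      omega
    · exact ⟨l, h⟩
  have hilt : i.val < 2 * H := ZMod.val_lt i
  have hend : ∀ J J' : ℕ, J < 2 * H → J' < 2 * H → Bn Q c0 J → Bn Q c0 J' →
      PairOK (5 * k) (vecR c0 J) (vecR c0 J') →
      X (vecR c0 J) + X (vecR c0 J') - 2 * (k.primeFactors.card : ZMod q) = ((a + 2 : ℤ) : ZMod q) →
      ∃ u ∈ (range (2 * H)).image (vecR c0), ∃ v ∈ (range (2 * H)).image (vecR c0),
        dt u v ≠ 0 ∧ (∃ m0 : ℤ, dp u v = dt u v * m0 ∧ Sm P0 (m0.natAbs ^ 2 + 1)) ∧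
        X u + X v - 2 * (om (dt u v) : ZMod q) ∈ ({(a : ZMod q)} : Set (ZMod q)) := by
    intro J J' hJ hJ' hBJ hBJ' hp hX
    refine ⟨vecR c0 J, Finset.mem_image_of_mem _ (Finset.mem_range.mpr hJ), vecR c0 J',
      Finset.mem_image_of_mem _ (Finset.mem_range.mpr hJ'), ?_, ?_, ?_⟩
    · rw [hp.1]
      intro h0
      apply hk0
      push_cast at h0
      have h1 : (k : ℤ) = 0 := by linarith
      exact_mod_cast h1
    · obtain ⟨m0, hm0⟩ := hp.2
      refine ⟨m0, hm0, ?_⟩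
      have h1 := sm_of_Bn Q c0 J J' k m0 hBJ hBJ' hp hm0
      intro p hpp hpd
      rcases h1 p hpp hpd with h2 | h2
      · exact Or.inl h2
      · exact Or.inr (by omega)
    · rw [Set.mem_singleton_iff, hp.1]
      have h3 : om (-((5 * k : ℕ) : ℤ)) = cardFactors (5 * k) := by
        simp only [om, Int.natAbs_neg, Int.natAbs_natCast]
      rw [h3, hΩ]
      push_cast at hX ⊢
      linear_combination hX
  rcases hor with ⟨hB, hB', hX⟩ | ⟨hB, hB', hX⟩
  · have hlt : i.val + k < 2 * H := by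
      rcases lt_or_ge i.val H with h | h
      · rw [Nat.mod_eq_of_lt h] at hi
        omega
      · have h2 : i.val % H = i.val - H := by
          rw [Nat.mod_eq_sub_mod h, Nat.mod_eq_of_lt (by omega)]
        rw [h2] at hi
        omega
    have hval : (i + (k : ZMod (2 * H))).val = i.val + k := by
      rw [ZMod.val_add, ZMod.val_natCast, Nat.mod_eq_of_lt (a := k) (by omega), Nat.mod_eq_of_lt hlt]
    rw [hval] at hX hB'
    refine hend i.val (i.val + k) hilt hlt hB hB' ?_ hX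
    obtain ⟨l, hl⟩ := hodd
    rcases Nat.even_or_odd' i.val with ⟨m, h | h⟩
    · rw [h, hl]
      apply pairR_A
      rw [← hl]
      apply dvd5_of_primes c0 k m hsf hk5 hc5 hc
      intro p hp
      obtain ⟨h1, -, h3, h4⟩ := hpk p hp
      rw [h] at h4
      rcases (Nat.Prime.dvd_mul h1).mp h4 with h5 | h5
      · have := Nat.le_of_dvd (by norm_num) h5
        have := h1.two_le
        omega
      · exact h5
    · rw [h, hl]
      apply pairR_B
      rw [← hl]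
      apply dvd5_of_primes c0 k (m + l + 1) hsf hk5 hc5 hc
      intro p hp
      obtain ⟨h1, -, h3, h4⟩ := hpk p hp
      have h5 : p ∣ i.val + k := dvd_add h4 (Nat.dvd_of_mem_primeFactors hp)
      have h6 : i.val + k = 2 * (m + l + 1) := by omega
      rw [h6] at h5
      rcases (Nat.Prime.dvd_mul h1).mp h5 with h7 | h7
      · have := Nat.le_of_dvd (by norm_num) h7
        have := h1.two_le
        omega
      · exact h7
  · obtain ⟨J, hJ⟩ : ∃ J : ℕ, J = i.val % H := ⟨_, rfl⟩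
    rw [← hJ] at hi
    have h2i : (2 * i).val = 2 * J := by
      have h1 : 2 * i = ((2 * i.val : ℕ) : ZMod (2 * H)) := by
        push_cast
        rw [ZMod.natCast_zmod_val]
      rw [h1, ZMod.val_natCast, Nat.mul_mod_mul_left, hJ]
    have h2k : (2 * (i + (k : ZMod (2 * H)))).val = 2 * (J + k) := by
      have h1 : 2 * (i + (k : ZMod (2 * H))) = ((2 * (i.val + k) : ℕ) : ZMod (2 * H)) := by
        push_cast
        rw [ZMod.natCast_zmod_val]
      rw [h1, ZMod.val_natCast, Nat.mul_mod_mul_left, hJ, Nat.add_mod, ← hJ]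
      rw [Nat.mod_eq_of_lt (a := k) (by omega), Nat.mod_eq_of_lt (by omega)]
    rw [h2i] at hX hB
    rw [h2k] at hX hB'
    refine hend (2 * J) (2 * (J + k)) (by omega) (by omega) hB hB' ?_ hX
    apply pairR_C
    apply dvd5_of_primes c0 k J hsf hk5 hc5 hc
    intro p hp
    obtain ⟨h1, h2, h3, h4⟩ := hpk p hp
    rw [hJ]
    exact (Nat.dvd_mod_iff (hpH p h1 h2)).mpr h4

/-- every even class modulo every number, no small odd prime factors -/
theorem almost_prime_evenR (q : ℕ) (hq : 0 < q) (a : ℤ) (ha : Even a) (P0 : ℕ) :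
    ∃ R : ℕ, ∀ᶠ N : ℕ in Filter.atTop, √(N : ℝ) / Real.log N ^ R ≤
      Set.ncard {k : ℕ | k ≤ N ∧ (∃ m : ℕ, k = m ^ 2 + 1) ∧
        (∀ p : ℕ, p.Prime → p ∣ k → p = 2 ∨ P0 < p) ∧ cardFactors k ≤ R ∧
        (cardFactors k : ℤ) ≡ a [ZMOD q] ∧
        ∃ s r : ℕ, k = s * r ∧ s ≤ R ∧ ∀ p : ℕ, p.Prime → p ∣ r → k < p ^ R} := by
  obtain ⟨R, hR⟩ := almost_prime_logR (certR_even q hq a ha P0)
  refine ⟨R, ?_⟩
  filter_upwards [hR] with N hN
  refine hN.trans (Nat.cast_le.mpr (Set.ncard_le_ncard ?_ ((Set.finite_Iic N).subset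
    fun k hk => hk.1)))
  rintro k ⟨hkN, hm, hp, hc, hA, hs⟩
  refine ⟨hkN, hm, hp, hc, ?_, hs⟩
  rw [Set.mem_singleton_iff] at hA
  exact (ZMod.intCast_eq_intCast_iff _ _ _).mp (by push_cast; exact hA)

end Pool.Agent.OmEv
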