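import Pool.Agent.Lib_MP_f1a94e_ev.ThmSL

/-!
# MP_f1a94e_nt: the even classes, combinatorial part

A labelling `Z` of `ZMod N` by classes modulo `q`; many `i` have a `k` with `Z i + Z (i + k)` or
`Z (2 i) + Z (2 (i + k))` in the required class. Otherwise the labels of `x` and `x + t`, and of `2 i` and
`2 (i + t)`, have different parities for most `x`, `i` and the same `t`; but among the labels of `2 i`, `2 i + t`,
`2 i + 2 t` two have the same parity.
-/

set_option autoImplicit false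

namespace Pool.Agent.OmEv

open Finset LibLS Pool.Agent.OmQ

/-- the sum of the labels differs from `a` by an even number -/
def Ev (q : ℕ) (a : ℤ) (x y : ZMod q) : Prop := ∃ j : ℕ, x + y - 2 * (j : ZMod q) = a

theorem ev_of_mod (q : ℕ) [NeZero q] (a : ℤ) (ha : Even a) (x y : ZMod q)
    (h : (x.val + y.val) % 2 = 0) : Ev q a x y := by
  obtain ⟨s, hs⟩ := Nat.even_iff.mpr h
  obtain ⟨t, ht⟩ := ha
  refine ⟨((((s : ℤ) - t : ℤ)) : ZMod q).val, ?_⟩
  rw [ZMod.natCast_zmod_val]
  have h1 : ((x.val + y.val : ℕ) : ZMod q) = ((s + s : ℕ) : ZMod q) := by rw [hs]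
  push_cast at h1
  rw [ZMod.natCast_zmod_val, ZMod.natCast_zmod_val] at h1
  rw [ht]
  push_cast
  linear_combination h1

theorem ev_three (q : ℕ) [NeZero q] (a : ℤ) (ha : Even a) (x y z : ZMod q) :
    Ev q a x y ∨ Ev q a y z ∨ Ev q a x z := by
  have h : (x.val + y.val) % 2 = 0 ∨ (y.val + z.val) % 2 = 0 ∨ (x.val + z.val) % 2 = 0 := by omega
  rcases h with h | h | h
  · exact Or.inl (ev_of_mod q a ha x y h)
  · exact Or.inr (Or.inl (ev_of_mod q a ha y z h))
  · exact Or.inr (Or.inr (ev_of_mod q a ha x z h))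

theorem two_mul_zero {N : ℕ} [NeZero N] (d : ZMod N) (h : 2 * d = 0) :
    d = 0 ∨ d = ((N / 2 : ℕ) : ZMod N) := by
  have h1 : ((2 * d.val : ℕ) : ZMod N) = 0 := by
    push_cast
    rw [ZMod.natCast_zmod_val]
    exact h
  rw [ZMod.natCast_eq_zero_iff] at h1
  obtain ⟨c, hc⟩ := h1
  have hlt := ZMod.val_lt d
  have hc2 : c < 2 := by
    have h2 : N * c < N * 2 := by omega
    exact Nat.lt_of_mul_lt_mul_left h2
  interval_cases c
  · left
    exact (ZMod.val_eq_zero d).mp (by omega)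
  · right
    have h2 : d.val = N / 2 := by omega
    rw [← h2, ZMod.natCast_zmod_val]

theorem sum_double_le {N : ℕ} [NeZero N] (f : ZMod N → ℝ) (hf : ∀ i, 0 ≤ f i) :
    ∑ i : ZMod N, f (2 * i) ≤ 2 * ∑ i : ZMod N, f i := by
  classical
  rw [← Finset.sum_fiberwise (s := Finset.univ) (g := fun i : ZMod N => 2 * i)
    (f := fun i => f (2 * i)), Finset.mul_sum]
  apply Finset.sum_le_sum
  intro y _
  have h1 : ∀ i ∈ Finset.univ.filter (fun i : ZMod N => 2 * i = y), f (2 * i) = f y := by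
    intro i hi
    rw [(Finset.mem_filter.mp hi).2]
  rw [Finset.sum_congr rfl h1, Finset.sum_const, nsmul_eq_mul]
  apply mul_le_mul_of_nonneg_right _ (hf y)
  have h2 : (Finset.univ.filter (fun i : ZMod N => 2 * i = y)).card ≤ 2 := by
    rcases (Finset.univ.filter (fun i : ZMod N => 2 * i = y)).eq_empty_or_nonempty with h | ⟨i0, hi0⟩
    · rw [h]
      simp
    · have hsub : Finset.univ.filter (fun i : ZMod N => 2 * i = y) ⊆
          {i0, i0 + ((N / 2 : ℕ) : ZMod N)} := by
        intro i hi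
        have h3 := (Finset.mem_filter.mp hi).2
        have h4 := (Finset.mem_filter.mp hi0).2
        have h5 : 2 * (i - i0) = 0 := by linear_combination h3 - h4
        rw [Finset.mem_insert, Finset.mem_singleton]
        rcases two_mul_zero _ h5 with h6 | h6
        · left
          exact sub_eq_zero.mp h6
        · right
          linear_combination h6
      exact (Finset.card_le_card hsub).trans Finset.card_le_two
  exact_mod_cast h2

theorem Av_double_le {N : ℕ} [NeZero N] (f : ZMod N → ℝ) (hf : ∀ i, 0 ≤ f i) :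
    Av (fun i => f (2 * i)) ≤ 2 * Av f := by
  have hN := @Npos N _
  unfold Av
  rw [← mul_div_assoc]
  exact div_le_div_of_nonneg_right (sum_double_le f hf) hN.le

theorem one_le {q : ℕ} {N : ℕ} [NeZero N] (E : ZMod q → ZMod q → Prop)
    (hE : ∀ x y z, E x y ∨ E y z ∨ E x z) (Z : ZMod N → ZMod q) (W T : ℕ) (hT : 0 < T) (h : ZMod N) :
    1 ≤ 4 * Av (fun i => avW W T (fun y => ind (E (Z i) (Z y))) (i + h)) +
      Av (fun i => avW W T (fun y => ind (E (Z (2 * i)) (Z (2 * y)))) (i + h)) := by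
  have hT0 : (0 : ℝ) < T := by exact_mod_cast hT
  have hr : ∀ r : ℕ, (1 : ℝ) ≤
      4 * Av (fun i => ind (E (Z i) (Z (i + h + ((W * r : ℕ) : ZMod N))))) +
      Av (fun i => ind (E (Z (2 * i)) (Z (2 * (i + h + ((W * r : ℕ) : ZMod N)))))) := by
    intro r
    obtain ⟨t, ht⟩ : ∃ t : ZMod N, t = h + ((W * r : ℕ) : ZMod N) := ⟨_, rfl⟩
    have e1 : ∀ i : ZMod N, i + h + ((W * r : ℕ) : ZMod N) = i + t := by
      intro i
      rw [ht, add_assoc]
    simp only [e1]
    obtain ⟨g, hg⟩ : ∃ g : ZMod N → ℝ, g = fun x => ind (E (Z x) (Z (x + t))) := ⟨_, rfl⟩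
    have hg0 : ∀ x, 0 ≤ g x := by
      intro x
      rw [hg]
      exact ind_nonneg _
    have h1 : Av (fun i => g (2 * i)) ≤ 2 * Av g := Av_double_le g hg0
    have h2 : Av (fun i => g (2 * i + t)) ≤ 2 * Av g := by
      have h3 := Av_double_le (fun x => g (x + t)) (fun _ => hg0 _)
      rw [Av_shift] at h3
      exact h3
    have h3 : (1 : ℝ) ≤ Av (fun i => g (2 * i)) + Av (fun i => g (2 * i + t)) +
        Av (fun i => ind (E (Z (2 * i)) (Z (2 * (i + t))))) := by
      rw [← Av_add, ← Av_add, ← Av_const (N := N) 1]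
      apply Av_mono
      intro i
      have n1 := hg0 (2 * i)
      have n2 := hg0 (2 * i + t)
      have n3 := ind_nonneg (E (Z (2 * i)) (Z (2 * (i + t))))
      have e2 : 2 * (i + t) = 2 * i + t + t := by ring
      rcases hE (Z (2 * i)) (Z (2 * i + t)) (Z (2 * (i + t))) with e | e | e
      · have e3 : g (2 * i) = 1 := by
          rw [hg]
          exact ind_of e
        linarith
      · have e3 : g (2 * i + t) = 1 := by
          rw [hg]
          apply ind_of
          rw [← e2]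
          exact e
        linarith
      · rw [ind_of e] at n3 ⊢
        linarith
    have h4 : Av (fun i => ind (E (Z i) (Z (i + t)))) = Av g := by rw [hg]
    rw [h4]
    linarith
  have e1 : Av (fun i => avW W T (fun y => ind (E (Z i) (Z y))) (i + h)) =
      (∑ r ∈ range T, Av (fun i => ind (E (Z i) (Z (i + h + ((W * r : ℕ) : ZMod N)))))) / T := by
    unfold avW
    simp only [div_eq_mul_inv]
    rw [Av_mul_const, Av_sum]
  have e2 : Av (fun i => avW W T (fun y => ind (E (Z (2 * i)) (Z (2 * y)))) (i + h)) =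
      (∑ r ∈ range T, Av (fun i => ind (E (Z (2 * i)) (Z (2 * (i + h + ((W * r : ℕ) : ZMod N))))))) / T := by
    unfold avW
    simp only [div_eq_mul_inv]
    rw [Av_mul_const, Av_sum]
  have h5 : (T : ℝ) ≤ 4 * ∑ r ∈ range T, Av (fun i => ind (E (Z i) (Z (i + h + ((W * r : ℕ) : ZMod N))))) +
      ∑ r ∈ range T, Av (fun i => ind (E (Z (2 * i)) (Z (2 * (i + h + ((W * r : ℕ) : ZMod N)))))) := by
    rw [Finset.mul_sum, ← Finset.sum_add_distrib]
    have h6 := Finset.card_nsmul_le_sum (range T) _ 1 (fun r _ => hr r)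
    rw [card_range, nsmul_eq_mul, mul_one] at h6
    exact h6
  rw [e1, e2, ← mul_div_assoc, ← add_div, le_div_iff₀ hT0, one_mul]
  exact h5

theorem ind_split {α : Type} [Fintype α] [DecidableEq α] (E : α → α → Prop) (x y : α) :
    ind (E x y) = ∑ c : α, ∑ c' : α, ind (E c c') * (ind (True ∧ x = c) * ind (True ∧ y = c')) := by
  rw [Finset.sum_eq_single_of_mem x (Finset.mem_univ _),
    Finset.sum_eq_single_of_mem y (Finset.mem_univ _)]
  · rw [ind_of (P := True ∧ x = x) ⟨trivial, rfl⟩, ind_of (P := True ∧ y = y) ⟨trivial, rfl⟩]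
    ring
  · intro c' _ hne
    rw [ind_not (P := True ∧ y = c') (fun h => hne h.2.symm)]
    ring
  · intro c _ hne
    apply Finset.sum_eq_zero
    intro c' _
    rw [ind_not (P := True ∧ x = c) (fun h => hne h.2.symm)]
    ring

theorem rel_sum {α : Type} [Fintype α] [DecidableEq α] {N : ℕ} [NeZero N] (X : ZMod N → α)
    (E : α → α → Prop) (W T n : ℕ) (δ : ℝ) (hδ : 0 ≤ δ)
    (h : ∀ c c' : α, E c c' → ∑ p ∈ PP n, Av (fun i => ind (True ∧ X i = c) *
      avW W T (fun i => ind (True ∧ X i = c')) (i + ((p % W : ℕ) : ZMod N))) ≤ δ * (PP n).card) :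
    ∑ p ∈ PP n, Av (fun i => avW W T (fun y => ind (E (X i) (X y))) (i + ((p % W : ℕ) : ZMod N))) ≤
      (Fintype.card α : ℝ) ^ 2 * δ * (PP n).card := by
  have key : ∀ i z : ZMod N, avW W T (fun y => ind (E (X i) (X y))) z = ∑ c : α, ∑ c' : α,
      ind (E c c') * (ind (True ∧ X i = c) * avW W T (fun y => ind (True ∧ X y = c')) z) := by
    intro i z
    unfold avW
    have h1 : ∀ r ∈ range T, ind (E (X i) (X (z + ((W * r : ℕ) : ZMod N)))) = ∑ c : α, ∑ c' : α,
        ind (E c c') * (ind (True ∧ X i = c) * ind (True ∧ X (z + ((W * r : ℕ) : ZMod N)) = c')) :=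
      fun r _ => ind_split E _ _
    rw [Finset.sum_congr rfl h1, Finset.sum_comm, Finset.sum_div]
    refine Finset.sum_congr rfl fun c _ => ?_
    rw [Finset.sum_comm, Finset.sum_div]
    refine Finset.sum_congr rfl fun c' _ => ?_
    rw [← Finset.mul_sum, ← Finset.mul_sum]
    ring
  calc ∑ p ∈ PP n, Av (fun i => avW W T (fun y => ind (E (X i) (X y))) (i + ((p % W : ℕ) : ZMod N)))
      = ∑ p ∈ PP n, ∑ c : α, ∑ c' : α, ind (E c c') * Av (fun i => ind (True ∧ X i = c) *
        avW W T (fun i => ind (True ∧ X i = c')) (i + ((p % W : ℕ) : ZMod N))) := by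
        refine Finset.sum_congr rfl fun p _ => ?_
        simp only [key]
        rw [Av_sum]
        refine Finset.sum_congr rfl fun c _ => ?_
        rw [Av_sum]
        refine Finset.sum_congr rfl fun c' _ => ?_
        rw [Av_const_mul]
    _ = ∑ c : α, ∑ c' : α, ind (E c c') * ∑ p ∈ PP n, Av (fun i => ind (True ∧ X i = c) *
        avW W T (fun i => ind (True ∧ X i = c')) (i + ((p % W : ℕ) : ZMod N))) := by
        rw [Finset.sum_comm]
        refine Finset.sum_congr rfl fun c _ => ?_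
        rw [Finset.sum_comm]
        refine Finset.sum_congr rfl fun c' _ => ?_
        rw [Finset.mul_sum]
    _ ≤ ∑ c : α, ∑ c' : α, δ * (PP n).card := by
        refine Finset.sum_le_sum fun c _ => Finset.sum_le_sum fun c' _ => ?_
        by_cases hE : E c c'
        · rw [ind_of hE, one_mul]
          exact h c c' hE
        · rw [ind_not hE, zero_mul]
          positivity
    _ = (Fintype.card α : ℝ) ^ 2 * δ * (PP n).card := by
        simp only [Finset.sum_const, Finset.card_univ, nsmul_eq_mul]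
        ring

theorem evenD (q : ℕ) [NeZero q] (a : ℤ) (ha : Even a) :
    ∃ (K0 Pi : ℕ) (ε0 : ℝ), 0 < Pi ∧ 0 < ε0 ∧ ∀ (N : ℕ) [NeZero N], Pi ∣ N → ∀ Z : ZMod N → ZMod q,
      ε0 ≤ Av (fun i : ZMod N => ind (∃ k : ℕ, k ≤ K0 ∧ Squarefree k ∧
        (∀ p ∈ k.primeFactors, p % 4 = 1) ∧ Dv (fun _ => 0) k i ∧
        (Z i + Z (i + (k : ZMod N)) - 2 * (k.primeFactors.card : ZMod q) = a ∨
          Z (2 * i) + Z (2 * (i + (k : ZMod N))) - 2 * (k.primeFactors.card : ZMod q) = a))) := by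
  classical
  obtain ⟨s, hs⟩ : ∃ s : ℕ, s = Fintype.card (ZMod q × ZMod q) := ⟨_, rfl⟩
  have hs0 : 0 < s := by
    rw [hs]
    exact Fintype.card_pos
  have hsR : (0 : ℝ) < s := by exact_mod_cast hs0
  obtain ⟨K0, Pi, ε0, hPi, -, hε, hmain⟩ := thmSL (Lb := ZMod q × ZMod q) q
    (fun c c' m => c.1 + c'.1 - 2 * m = a ∨ c.2 + c'.2 - 2 * m = a) 1 one_pos
    (1 / (6 * (s : ℝ) ^ 2)) (by positivity)
  refine ⟨K0, Pi, ε0, hPi, hε, ?_⟩
  intro N _ hPN Z
  by_contra hlt
  rw [not_le] at hlt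
  obtain ⟨W, T, n, hW, hT, -, hcard, -, hcc⟩ := hmain N hPN (fun i => (Z i, Z (2 * i)))
    (fun i => (Z i, Z (2 * i))) (fun _ => True) (fun _ => True) (fun _ => 0) (by
      refine lt_of_le_of_lt (Av_mono fun i => ind_mono ?_) hlt
      rintro ⟨-, k, h1, h2, h3, h4, -, h5⟩
      exact ⟨k, h1, h2, fun p hp => (h3 p hp).1, h4, h5⟩)
  have hPPR : (0 : ℝ) < (PP n).card := by exact_mod_cast hcard
  have h1 := rel_sum (fun i : ZMod N => (Z i, Z (2 * i))) (fun c c' => Ev q a c.1 c'.1) W T n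
    (1 / (6 * (s : ℝ) ^ 2)) (by positivity) (fun c c' ⟨j, hj⟩ => hcc c c' ⟨j, Or.inl hj⟩)
  have h2 := rel_sum (fun i : ZMod N => (Z i, Z (2 * i))) (fun c c' => Ev q a c.2 c'.2) W T n
    (1 / (6 * (s : ℝ) ^ 2)) (by positivity) (fun c c' ⟨j, hj⟩ => hcc c c' ⟨j, Or.inr hj⟩)
  rw [← hs] at h1 h2
  have h3 : (s : ℝ) ^ 2 * (1 / (6 * (s : ℝ) ^ 2)) * (PP n).card = (PP n).card / 6 := by
    field_simp
  rw [h3] at h1 h2
  have h4 : ∀ p ∈ PP n, (1 : ℝ) ≤
      4 * Av (fun i => avW W T (fun y => ind (Ev q a (Z i) (Z y))) (i + ((p % W : ℕ) : ZMod N))) +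
      Av (fun i => avW W T (fun y => ind (Ev q a (Z (2 * i)) (Z (2 * y)))) (i + ((p % W : ℕ) : ZMod N))) :=
    fun p _ => one_le (Ev q a) (ev_three q a ha) Z W T hT _
  have h5 := Finset.card_nsmul_le_sum (PP n) _ 1 h4
  rw [nsmul_eq_mul, mul_one, Finset.sum_add_distrib, ← Finset.mul_sum] at h5
  have h6 : ((PP n).card : ℝ) ≤ 4 * ((PP n).card / 6) + (PP n).card / 6 := by
    refine h5.trans (add_le_add (mul_le_mul_of_nonneg_left h1 (by norm_num)) h2)
  linarith

end Pool.Agent.OmEv
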