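import Pool.Agent.Lib_MP_f1a94e_ev.ThmSR

/-!
# MP_f1a94e_nt: the line certificate for an even class
-/

set_option autoImplicit false

namespace Pool.Agent.OmQ

open Finset LibLS

/-- averages along the doubling map -/
theorem Av_two_mul_le {N : ℕ} [NeZero N] (f : ZMod N → ℝ) (hf : ∀ i, 0 ≤ f i) :
    Av (fun i => f (2 * i)) ≤ 2 * Av f := by
  classical
  have hN := @Npos N _
  have hinj : Function.Injective (fun i : ZMod N => (2 * i, decide (N ≤ 2 * i.val))) := by
    intro i i' h
    simp only [Prod.mk.injEq] at h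
    obtain ⟨h1, h2⟩ := h
    have h3 : ((2 * i.val : ℕ) : ZMod N) = ((2 * i'.val : ℕ) : ZMod N) := by
      push_cast
      rw [ZMod.natCast_zmod_val, ZMod.natCast_zmod_val]
      exact h1
    rw [ZMod.natCast_eq_natCast_iff] at h3
    have l1 := ZMod.val_lt i
    have l2 := ZMod.val_lt i'
    have h4 : (N ≤ 2 * i.val) ↔ (N ≤ 2 * i'.val) := decide_eq_decide.mp h2
    have h5 : i.val = i'.val := by
      unfold Nat.ModEq at h3
      by_cases hc : N ≤ 2 * i.val
      · have hc' := h4.mp hc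
        rw [Nat.mod_eq_sub_mod hc, Nat.mod_eq_sub_mod hc', Nat.mod_eq_of_lt (by omega),
          Nat.mod_eq_of_lt (by omega)] at h3
        omega
      · have hc' : ¬ N ≤ 2 * i'.val := fun h => hc (h4.mpr h)
        rw [Nat.mod_eq_of_lt (by omega), Nat.mod_eq_of_lt (by omega)] at h3
        omega
    exact ZMod.val_injective N h5
  have h1 : ∑ i : ZMod N, f (2 * i) ≤ 2 * ∑ i : ZMod N, f i := by
    calc ∑ i : ZMod N, f (2 * i)
        = ∑ x ∈ univ.image (fun i : ZMod N => (2 * i, decide (N ≤ 2 * i.val))), f x.1 := by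
          rw [sum_image (fun i _ j _ h => hinj h)]
      _ ≤ ∑ x : ZMod N × Bool, f x.1 :=
          sum_le_sum_of_subset_of_nonneg (subset_univ _) fun x _ _ => hf _
      _ = 2 * ∑ i : ZMod N, f i := by
          rw [Fintype.sum_prod_type, mul_sum]
          refine sum_congr rfl fun i _ => ?_
          simp [two_mul]
  unfold Av
  rw [mul_div_assoc']
  gcongr

/-- the indices close to the end -/
theorem Av_end_le {N : ℕ} [NeZero N] (K : ℕ) :
    Av (fun i : ZMod N => ind (N ≤ i.val + K)) ≤ K / N := by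
  classical
  have hN := @Npos N _
  unfold Av
  gcongr
  have h1 : ∑ i : ZMod N, ind (N ≤ i.val + K) =
      ((univ.filter fun i : ZMod N => N ≤ i.val + K).card : ℝ) := by
    rw [Finset.card_filter]
    push_cast
    refine Finset.sum_congr rfl fun i _ => ?_
    unfold ind
    split_ifs <;> rfl
  rw [h1]
  have h2 : (univ.filter fun i : ZMod N => N ≤ i.val + K).card ≤ (Finset.Ico (N - K) N).card := by
    refine Finset.card_le_card_of_injOn (fun i => i.val) ?_ ?_
    · intro i hi
      have hi' := (Finset.mem_filter.mp (Finset.mem_coe.mp hi)).2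
      have hilt : i.val < N := ZMod.val_lt i
      exact Finset.mem_coe.mpr (Finset.mem_Ico.mpr ⟨(by omega : N - K ≤ i.val), hilt⟩)
    · intro i _ j _ hij
      exact ZMod.val_injective N hij
  rw [Nat.card_Ico] at h2
  have h3 : (univ.filter fun i : ZMod N => N ≤ i.val + K).card ≤ K := by omega
  exact_mod_cast h3

/-- two labels of equal parity -/
theorem hit_of (q : ℕ) [NeZero q] (a : ℤ) (ha : Even a) (z z' : ZMod q)
    (h : z.val % 2 = z'.val % 2) :
    ∃ m : ℕ, 1 ≤ m ∧ m ≤ q ∧ z + z' = a + 2 * ((m + 1 : ℕ) : ZMod q) := by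
  obtain ⟨a', ha'⟩ := ha
  obtain ⟨s, hs⟩ : ∃ s : ℕ, z.val + z'.val = 2 * s := ⟨(z.val + z'.val) / 2, by omega⟩
  obtain ⟨m, hm, hmj⟩ := exists_m q ((s : ZMod q) - (a' : ZMod q)).val
  rw [ZMod.natCast_zmod_val] at hmj
  refine ⟨m, (Finset.mem_Icc.mp hm).1, (Finset.mem_Icc.mp hm).2, ?_⟩
  rw [hmj, ha']
  have h1 : z + z' = ((z.val + z'.val : ℕ) : ZMod q) := by
    push_cast
    rw [ZMod.natCast_zmod_val, ZMod.natCast_zmod_val]
  rw [h1, hs]
  push_cast
  ring

/-- the relation -/
def RelE (q : ℕ) (a : ℤ) (m : ℕ) (c c' : ZMod q × ZMod q) : Prop :=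
  c.1 + c'.1 = a + 2 * (m : ZMod q) ∨ c.2 + c'.2 = a + 2 * (m : ZMod q)

/-- the pairs hit -/
def HitE (q : ℕ) (a : ℤ) (z z' : ZMod q) : Prop :=
  ∃ m : ℕ, 1 ≤ m ∧ m ≤ q ∧ z + z' = a + 2 * ((m + 1 : ℕ) : ZMod q)

/-- the pairs of labels hit -/
def HitR (q : ℕ) (a : ℤ) (c c' : ZMod q × ZMod q) : Prop :=
  ∃ m : ℕ, 1 ≤ m ∧ m ≤ q ∧ RelE q a (m + 1) c c'

theorem three_labels (q : ℕ) [NeZero q] (a : ℤ) (ha : Even a) (z1 z2 z3 : ZMod q) :
    1 ≤ ind (HitE q a z1 z2) + ind (HitE q a z2 z3) + ind (HitE q a z1 z3) := by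
  have h1 := ind_nonneg (HitE q a z1 z2)
  have h2 := ind_nonneg (HitE q a z2 z3)
  have h3 := ind_nonneg (HitE q a z1 z3)
  by_cases e1 : z1.val % 2 = z2.val % 2
  · have := ind_of (show HitE q a z1 z2 from hit_of q a ha z1 z2 e1)
    linarith
  by_cases e2 : z2.val % 2 = z3.val % 2
  · have := ind_of (show HitE q a z2 z3 from hit_of q a ha z2 z3 e2)
    linarith
  have e3 : z1.val % 2 = z3.val % 2 := by omega
  have := ind_of (show HitE q a z1 z3 from hit_of q a ha z1 z3 e3)
  linarith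

/-- lower bound for one prime -/
theorem one_fifth (q : ℕ) [NeZero q] (a : ℤ) (ha : Even a) {N : ℕ} [NeZero N] (Z : ZMod N → ZMod q)
    (W T h : ℕ) (hT : 0 < T) :
    1 / 5 ≤ Av (fun i : ZMod N => (∑ r ∈ range T,
      ind (HitR q a (Z i, Z (2 * i)) (Z (i + (h : ZMod N) + ((W * r : ℕ) : ZMod N)),
        Z (2 * (i + (h : ZMod N) + ((W * r : ℕ) : ZMod N)))))) / T) := by
  have hT' : (0 : ℝ) < T := by exact_mod_cast hT
  set f : ℕ → ZMod N → ℝ := fun r j =>
    ind (HitE q a (Z j) (Z (j + ((h : ZMod N) + ((W * r : ℕ) : ZMod N))))) with hf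
  set g : ℕ → ZMod N → ℝ := fun r i =>
    ind (HitR q a (Z i, Z (2 * i)) (Z (i + (h : ZMod N) + ((W * r : ℕ) : ZMod N)),
        Z (2 * (i + (h : ZMod N) + ((W * r : ℕ) : ZMod N))))) with hg
  have hfg : ∀ r j, f r j ≤ g r j := by
    intro r j
    apply ind_mono
    rintro ⟨m, h1, h2, h3⟩
    refine ⟨m, h1, h2, Or.inl ?_⟩
    rw [← add_assoc] at h3
    exact h3
  have hkey : ∀ r, 1 ≤ 5 * Av (g r) := by
    intro r
    set s : ZMod N := (h : ZMod N) + ((W * r : ℕ) : ZMod N) with hs
    have h1 : ∀ i : ZMod N, 1 ≤ f r (2 * i) + f r (2 * i + s) + g r i := by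
      intro i
      have h2 := three_labels q a ha (Z (2 * i)) (Z (2 * i + s)) (Z (2 * i + s + s))
      have h3 : ind (HitE q a (Z (2 * i)) (Z (2 * i + s + s))) ≤ g r i := by
        apply ind_mono
        rintro ⟨m, k1, k2, k3⟩
        refine ⟨m, k1, k2, Or.inr ?_⟩
        have e1 : 2 * (i + (h : ZMod N) + ((W * r : ℕ) : ZMod N)) = 2 * i + s + s := by
          rw [hs]; ring
        simp only [e1]
        exact k3
      simp only [hf]
      linarith
    have h2 : (1 : ℝ) ≤ Av (fun i => f r (2 * i)) + Av (fun i => f r (2 * i + s)) + Av (g r) := by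
      have h3 := Av_mono h1
      rw [Av_const, Av_add, Av_add] at h3
      exact h3
    have h3 : Av (fun i => f r (2 * i)) ≤ 2 * Av (f r) := Av_two_mul_le (f r) fun _ => ind_nonneg _
    have h4 : Av (fun i => f r (2 * i + s)) ≤ 2 * Av (f r) := by
      have h5 := Av_two_mul_le (fun j => f r (j + s)) fun _ => ind_nonneg _
      rw [Av_shift (f r) s] at h5
      exact h5
    have h5 : Av (f r) ≤ Av (g r) := Av_mono (hfg r)
    linarith
  have h6 : Av (fun i : ZMod N => (∑ r ∈ range T, g r i) / T) = (∑ r ∈ range T, Av (g r)) / T := by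
    have h7 : (fun i : ZMod N => (∑ r ∈ range T, g r i) / (T : ℝ)) =
        fun i => (∑ r ∈ range T, g r i) * (1 / (T : ℝ)) := by
      funext i
      ring
    rw [h7, Av_mul_const, Av_sum]
    ring
  rw [h6, le_div_iff₀ hT']
  calc 1 / 5 * (T : ℝ) = ∑ r ∈ range T, (1 / 5 : ℝ) := by
        rw [sum_const, card_range, nsmul_eq_mul]; ring
    _ ≤ ∑ r ∈ range T, Av (g r) := by
        apply sum_le_sum
        intro r _
        have := hkey r
        linarith

/-- the sum over all pairs of labels hit -/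
theorem sum_hit {L : Type} [Fintype L] [DecidableEq L] {N : ℕ} (H : L → L → Prop)
    (X : ZMod N → L) (W T h : ℕ) (i : ZMod N) :
    ∑ c : L, ∑ c' : L, ind (H c c') * (ind (True ∧ X i = c) *
      avW W T (fun i => ind (True ∧ X i = c')) (i + (h : ZMod N))) =
      (∑ r ∈ range T, ind (H (X i) (X (i + (h : ZMod N) + ((W * r : ℕ) : ZMod N))))) / T := by
  classical
  have hTr : ind True = 1 := ind_of trivial
  rw [Finset.sum_eq_single_of_mem (X i) (Finset.mem_univ _)]
  · unfold avW
    simp only [true_and, hTr, one_mul]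
    simp only [mul_div_assoc', Finset.mul_sum]
    rw [← Finset.sum_div, Finset.sum_comm]
    congr 1
    refine Finset.sum_congr rfl fun r _ => ?_
    rw [Finset.sum_eq_single_of_mem (X (i + (h : ZMod N) + ((W * r : ℕ) : ZMod N)))
      (Finset.mem_univ _)]
    · simp only [hTr, mul_one]
    · intro c' _ hne
      have h0 : ind (X (i + (h : ZMod N) + ((W * r : ℕ) : ZMod N)) = c') = 0 :=
        ind_not (fun hh => hne hh.symm)
      simp only [h0, mul_zero]
  · intro c _ hne
    refine Finset.sum_eq_zero fun c' _ => ?_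
    have h0 : ind (True ∧ X i = c) = 0 := ind_not (fun hh => hne hh.2.symm)
    rw [h0, zero_mul, mul_zero]

/-- EVENLINE: the certificate on the line for an even class -/
theorem evenLine (q : ℕ) (hq : 0 < q) (a : ℤ) (ha : Even a) :
    ∃ N K : ℕ, ∀ Z : ℕ → ZMod q, ∃ j k e : ℕ, 0 < k ∧ k ≤ K ∧ Squarefree k ∧
      (∀ p ∈ k.primeFactors, p % 4 = 1) ∧ k ∣ j ∧ (e = 1 ∨ e = 2 ∧ Even j) ∧ j + e * k < N ∧
      Z j + Z (j + e * k) = a + 2 * (ArithmeticFunction.cardFactors k : ZMod q) := by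
  classical
  have : NeZero q := ⟨hq.ne'⟩
  have hqR : (0 : ℝ) < q := by exact_mod_cast hq
  obtain ⟨K0, Pi, ε0, hPi, -, hε0, hmain⟩ := thmSR (LX := ZMod q × ZMod q) (LY := ZMod q × ZMod q)
    q (RelE q a) 1 one_pos (1 / (6 * (q : ℝ) ^ 4)) (by positivity)
  obtain ⟨M0, hM0⟩ := exists_nat_gt (6 * (K0 : ℝ) / ε0)
  obtain ⟨N, hNdef⟩ : ∃ N, N = Pi * (2 * K0.factorial * (M0 + 1)) := ⟨_, rfl⟩
  have hfac := Nat.factorial_pos K0
  have hNpos : 0 < N := by
    rw [hNdef]
    positivity
  have hNz : NeZero N := ⟨hNpos.ne'⟩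
  have hNM : M0 < N := by
    rw [hNdef]
    calc M0 < M0 + 1 := Nat.lt_succ_self _
      _ = 1 * (1 * 1 * (M0 + 1)) := by ring
      _ ≤ Pi * (2 * K0.factorial * (M0 + 1)) := by
          apply Nat.mul_le_mul hPi
          apply Nat.mul_le_mul_right
          exact Nat.mul_le_mul (by norm_num) hfac
  have hPN : Pi ∣ N := ⟨_, hNdef⟩
  have h2N : 2 ∣ N := by
    rw [hNdef]
    exact ⟨Pi * K0.factorial * (M0 + 1), by ring⟩
  have hfN : K0.factorial ∣ N := by
    rw [hNdef]
    exact ⟨Pi * 2 * (M0 + 1), by ring⟩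
  have hNR : (0 : ℝ) < N := Npos
  have hNε : 6 * (K0 : ℝ) / N < ε0 := by
    rw [div_lt_iff₀ hNR]
    rw [div_lt_iff₀ hε0] at hM0
    have h1 : (M0 : ℝ) ≤ N := by exact_mod_cast hNM.le
    nlinarith
  refine ⟨N, K0, fun Z => ?_⟩
  by_contra hcon
  push Not at hcon
  set Z' : ZMod N → ZMod q := fun i => Z i.val with hZ'
  set X : ZMod N → ZMod q × ZMod q := fun i => (Z' i, Z' (2 * i)) with hX
  -- values of shifted indices
  have hval : ∀ (i : ZMod N) (k : ℕ), i.val + k < N → (i + (k : ZMod N)).val = i.val + k := by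
    intro i k hk
    rw [ZMod.val_add, ZMod.val_natCast, Nat.mod_eq_of_lt (by omega : k < N), Nat.mod_eq_of_lt hk]
  have hΩ : ∀ k : ℕ, Squarefree k → ArithmeticFunction.cardFactors k = k.primeFactors.card := by
    intro k hsf
    rw [← (ArithmeticFunction.cardDistinctFactors_eq_cardFactors_iff_squarefree hsf.ne_zero).mpr
      hsf, ArithmeticFunction.cardDistinctFactors_apply]
    rfl
  have hgood : ∀ i : ZMod N, GoodR K0 1 (fun _ => 0) (RelE q a) X X (fun _ => True)
      (fun _ => True) i → N ≤ i.val + 2 * K0 ∨ N ≤ (2 * i).val + 2 * K0 := by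
    rintro i ⟨-, k, hk, hsf, hp, hD, -, hR⟩
    by_contra hlt
    push Not at hlt
    obtain ⟨hl1, hl2⟩ := hlt
    have hk0 : 0 < k := Nat.pos_of_ne_zero hsf.ne_zero
    have hki : k ∣ i.val := by
      rw [← Nat.prod_primeFactors_of_squarefree hsf]
      refine Finset.prod_primes_dvd _ (fun p hp => (Nat.prime_of_mem_primeFactors hp).prime) ?_
      intro p hp
      exact (Nat.modEq_zero_iff_dvd).mp (hD p hp)
    have hkN : k ∣ N := (Nat.dvd_factorial hk0 hk).trans hfN
    rcases hR with hR | hR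
    · have h1 := hcon i.val k 1 hk0 hk hsf (fun p hp' => (hp p hp').1) hki (Or.inl rfl) (by omega)
      apply h1
      have h2 : Z' (i + (k : ZMod N)) = Z (i.val + 1 * k) := by
        simp only [hZ']
        rw [hval i k (by omega), one_mul]
      rw [hΩ k hsf, ← h2]
      exact hR
    · have hcast : (2 * i : ZMod N) = ((2 * i.val : ℕ) : ZMod N) := by
        push_cast
        rw [ZMod.natCast_zmod_val]
      have hv2 : (2 * i : ZMod N).val = (2 * i.val) % N := by
        rw [hcast, ZMod.val_natCast]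
      have hk2 : k ∣ (2 * i : ZMod N).val := by
        rw [hv2]
        exact (Nat.dvd_mod_iff hkN).mpr (hki.mul_left 2)
      have hev : Even (2 * i : ZMod N).val := by
        rw [hv2, even_iff_two_dvd]
        exact (Nat.dvd_mod_iff h2N).mpr (dvd_mul_right _ _)
      have h1 := hcon (2 * i : ZMod N).val k 2 hk0 hk hsf (fun p hp' => (hp p hp').1) hk2
        (Or.inr ⟨rfl, hev⟩) (by omega)
      apply h1
      have h2 : Z' (2 * (i + (k : ZMod N))) = Z ((2 * i : ZMod N).val + 2 * k) := by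
        simp only [hZ']
        have e1 : 2 * (i + (k : ZMod N)) = 2 * i + ((2 * k : ℕ) : ZMod N) := by
          push_cast
          ring
        rw [e1, hval (2 * i) (2 * k) (by omega)]
      rw [hΩ k hsf, ← h2]
      exact hR
  have hlow : Av (fun i : ZMod N => ind (GoodR K0 1 (fun _ => 0) (RelE q a) X X (fun _ => True)
      (fun _ => True) i)) < ε0 := by
    refine lt_of_le_of_lt ?_ hNε
    have h1 : ∀ i : ZMod N, ind (GoodR K0 1 (fun _ => 0) (RelE q a) X X (fun _ => True)
        (fun _ => True) i) ≤ ind (N ≤ i.val + 2 * K0) + ind (N ≤ (2 * i).val + 2 * K0) := by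
      intro i
      by_cases hg : GoodR K0 1 (fun _ => 0) (RelE q a) X X (fun _ => True) (fun _ => True) i
      · rw [ind_of hg]
        have e1 := ind_nonneg (N ≤ i.val + 2 * K0)
        have e2 := ind_nonneg (N ≤ (2 * i).val + 2 * K0)
        rcases hgood i hg with h | h
        · rw [ind_of h] at e1 ⊢
          linarith
        · rw [ind_of h] at e2 ⊢
          linarith
      · rw [ind_not hg]
        exact add_nonneg (ind_nonneg _) (ind_nonneg _)
    have h2 := Av_mono h1
    rw [Av_add] at h2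
    have h3 := Av_end_le (N := N) (2 * K0)
    have h4 := Av_two_mul_le (fun i : ZMod N => ind (N ≤ i.val + 2 * K0)) fun _ => ind_nonneg _
    refine h2.trans ?_
    have h5 : (((2 * K0 : ℕ) : ℝ)) / N + 2 * (((2 * K0 : ℕ) : ℝ) / N) = 6 * (K0 : ℝ) / N := by
      push_cast
      ring
    rw [← h5]
    exact add_le_add h3 (h4.trans (mul_le_mul_of_nonneg_left h3 zero_le_two))
  obtain ⟨W, T, n, hW, hT, -, hcard, -, hcc⟩ := hmain N hPN X X (fun _ => True) (fun _ => True)
    (fun _ => 0) hlow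
  have hcard' : (0 : ℝ) < (PP n).card := by exact_mod_cast hcard
  have hupper : ∑ c : ZMod q × ZMod q, ∑ c' : ZMod q × ZMod q, ind (HitR q a c c') *
      ∑ p ∈ PP n, Av (fun i => ind (True ∧ X i = c) *
        avW W T (fun i => ind (True ∧ X i = c')) (i + ((p % W : ℕ) : ZMod N))) ≤
      (PP n).card / 6 := by
    have hu1 : ∑ c : ZMod q × ZMod q, ∑ c' : ZMod q × ZMod q, ind (HitR q a c c') *
      ∑ p ∈ PP n, Av (fun i => ind (True ∧ X i = c) *
        avW W T (fun i => ind (True ∧ X i = c')) (i + ((p % W : ℕ) : ZMod N))) ≤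
        ∑ _c : ZMod q × ZMod q, ∑ _c' : ZMod q × ZMod q,
          (1 / (6 * (q : ℝ) ^ 4) * ((PP n).card : ℝ) : ℝ) := by
          refine sum_le_sum fun c _ => sum_le_sum fun c' _ => ?_
          by_cases hH : HitR q a c c'
          · rw [ind_of hH, one_mul]
            exact hcc c c' hH
          · rw [ind_not hH, zero_mul]
            positivity
    refine hu1.trans (le_of_eq ?_)
    simp only [sum_const, card_univ, Fintype.card_prod, ZMod.card, nsmul_eq_mul]
    push_cast
    field_simp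
  have hlower : ((PP n).card : ℝ) * (1 / 5) ≤
      ∑ c : ZMod q × ZMod q, ∑ c' : ZMod q × ZMod q, ind (HitR q a c c') *
      ∑ p ∈ PP n, Av (fun i => ind (True ∧ X i = c) *
        avW W T (fun i => ind (True ∧ X i = c')) (i + ((p % W : ℕ) : ZMod N))) := by
    have hswap : ∑ c : ZMod q × ZMod q, ∑ c' : ZMod q × ZMod q, ind (HitR q a c c') *
        ∑ p ∈ PP n, Av (fun i => ind (True ∧ X i = c) *
          avW W T (fun i => ind (True ∧ X i = c')) (i + ((p % W : ℕ) : ZMod N))) =
        ∑ p ∈ PP n, Av (fun i => ∑ c : ZMod q × ZMod q, ∑ c' : ZMod q × ZMod q,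
          ind (HitR q a c c') * (ind (True ∧ X i = c) *
          avW W T (fun i => ind (True ∧ X i = c')) (i + ((p % W : ℕ) : ZMod N)))) := by
      have e1 : ∀ p ∈ PP n, Av (fun i => ∑ c : ZMod q × ZMod q, ∑ c' : ZMod q × ZMod q,
          ind (HitR q a c c') * (ind (True ∧ X i = c) *
          avW W T (fun i => ind (True ∧ X i = c')) (i + ((p % W : ℕ) : ZMod N)))) =
          ∑ c : ZMod q × ZMod q, ∑ c' : ZMod q × ZMod q, ind (HitR q a c c') *
          Av (fun i => ind (True ∧ X i = c) *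
          avW W T (fun i => ind (True ∧ X i = c')) (i + ((p % W : ℕ) : ZMod N))) := by
        intro p _
        rw [Av_sum]
        refine sum_congr rfl fun c _ => ?_
        rw [Av_sum]
        refine sum_congr rfl fun c' _ => ?_
        rw [Av_const_mul]
      rw [sum_congr rfl e1]
      simp only [mul_sum]
      rw [sum_congr rfl (fun (c : ZMod q × ZMod q) _ => sum_comm), sum_comm]
    rw [hswap, ← nsmul_eq_mul]
    refine card_nsmul_le_sum _ _ _ fun p _ => ?_
    have e2 : (fun i : ZMod N => ∑ c : ZMod q × ZMod q, ∑ c' : ZMod q × ZMod q,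
          ind (HitR q a c c') * (ind (True ∧ X i = c) *
          avW W T (fun i => ind (True ∧ X i = c')) (i + ((p % W : ℕ) : ZMod N)))) =
        fun i : ZMod N => (∑ r ∈ range T,
          ind (HitR q a (Z' i, Z' (2 * i)) (Z' (i + ((p % W : ℕ) : ZMod N) + ((W * r : ℕ) : ZMod N)),
          Z' (2 * (i + ((p % W : ℕ) : ZMod N) + ((W * r : ℕ) : ZMod N)))))) / T := by
      funext i
      exact sum_hit (HitR q a) X W T (p % W) i
    rw [e2]
    exact one_fifth q a ha Z' W T (p % W) hT
  have h9 := hlower.trans hupper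
  linarith

end Pool.Agent.OmQ
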