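import Pool.Agent.Lib_MP_f1a94e_ev.EvenD
import Pool.Agent.Lib_MP_f1a94e_q.ThmC

/-!
# MP_f1a94e_nt: the even classes with a periodic condition on the positions
-/

set_option autoImplicit false

namespace Pool.Agent.OmEv

open Finset LibLS Pool.Agent.OmQ

theorem one_leR {q N : ℕ} [NeZero N] (E : ZMod q → ZMod q → Prop)
    (hE : ∀ x y z, E x y ∨ E y z ∨ E x z) (Z : ZMod N → ZMod q) (B : ZMod N → Prop) (b W T h : ℕ)
    (hb : 0 < b) (hbN : b ∣ N) (hbW : b ∣ W) (hT : 0 < T)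
    (hB : ∀ i, B (i + (b : ZMod N)) ↔ B i)
    (hex : ∀ h : ℕ, h.Coprime b → ∃ i : ZMod N, B (2 * i) ∧ B (2 * i + (h : ZMod N)) ∧
      B (2 * (i + (h : ZMod N)))) (hh : h.Coprime b) :
    1 / (b : ℝ) ≤ 4 * Av (fun i => avW W T (fun y => ind (B i ∧ B y ∧ E (Z i) (Z y))) (i + (h : ZMod N))) +
      Av (fun i => avW W T (fun y => ind (B (2 * i) ∧ B (2 * y) ∧ E (Z (2 * i)) (Z (2 * y))))
        (i + (h : ZMod N))) := by
  have hT0 : (0 : ℝ) < T := by exact_mod_cast hT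
  have hr : ∀ r : ℕ, 1 / (b : ℝ) ≤
      4 * Av (fun i => ind (B i ∧ B (i + (h : ZMod N) + ((W * r : ℕ) : ZMod N)) ∧
        E (Z i) (Z (i + (h : ZMod N) + ((W * r : ℕ) : ZMod N))))) +
      Av (fun i => ind (B (2 * i) ∧ B (2 * (i + (h : ZMod N) + ((W * r : ℕ) : ZMod N))) ∧
        E (Z (2 * i)) (Z (2 * (i + (h : ZMod N) + ((W * r : ℕ) : ZMod N)))))) := by
    intro r
    obtain ⟨t, ht⟩ : ∃ t : ℕ, t = h + W * r := ⟨_, rfl⟩
    have htb : t.Coprime b := by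
      obtain ⟨w, rfl⟩ := hbW
      rw [ht, mul_assoc]
      exact (Nat.coprime_add_mul_left_left h b (w * r)).mpr hh
    have e1 : ∀ i : ZMod N, i + (h : ZMod N) + ((W * r : ℕ) : ZMod N) = i + (t : ZMod N) := by
      intro i
      rw [ht, Nat.cast_add, add_assoc]
    simp only [e1]
    obtain ⟨g, hg⟩ : ∃ g : ZMod N → ℝ, g = fun x => ind (B x ∧ B (x + (t : ZMod N)) ∧
      E (Z x) (Z (x + (t : ZMod N)))) := ⟨_, rfl⟩
    have hg0 : ∀ x, 0 ≤ g x := by
      intro x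
      rw [hg]
      exact ind_nonneg _
    have h1 : Av (fun i => g (2 * i)) ≤ 2 * Av g := Av_double_le g hg0
    have h2 : Av (fun i => g (2 * i + (t : ZMod N))) ≤ 2 * Av g := by
      have h3 := Av_double_le (fun x => g (x + (t : ZMod N))) (fun _ => hg0 _)
      rw [Av_shift] at h3
      exact h3
    obtain ⟨i0, hi0⟩ := hex t htb
    have hper : ∀ i : ZMod N, (B (2 * (i + (b : ZMod N))) ∧ B (2 * (i + (b : ZMod N)) + (t : ZMod N)) ∧
        B (2 * (i + (b : ZMod N) + (t : ZMod N)))) ↔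
        (B (2 * i) ∧ B (2 * i + (t : ZMod N)) ∧ B (2 * (i + (t : ZMod N)))) := by
      intro i
      have e2 : 2 * (i + (b : ZMod N)) = 2 * i + (b : ZMod N) + (b : ZMod N) := by ring
      have e3 : 2 * (i + (b : ZMod N)) + (t : ZMod N) =
          2 * i + (t : ZMod N) + (b : ZMod N) + (b : ZMod N) := by ring
      have e4 : 2 * (i + (b : ZMod N) + (t : ZMod N)) =
          2 * (i + (t : ZMod N)) + (b : ZMod N) + (b : ZMod N) := by ring
      rw [e3, e4, e2, hB, hB, hB, hB, hB, hB]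
    have hdens := thmC_dens (P := fun i : ZMod N => B (2 * i) ∧ B (2 * i + (t : ZMod N)) ∧
      B (2 * (i + (t : ZMod N)))) hb hbN hper i0 hi0
    have h3 : Av (fun i : ZMod N => ind (B (2 * i) ∧ B (2 * i + (t : ZMod N)) ∧
        B (2 * (i + (t : ZMod N))))) ≤ Av (fun i => g (2 * i)) + Av (fun i => g (2 * i + (t : ZMod N))) +
        Av (fun i => ind (B (2 * i) ∧ B (2 * (i + (t : ZMod N))) ∧
          E (Z (2 * i)) (Z (2 * (i + (t : ZMod N)))))) := by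
      rw [← Av_add, ← Av_add]
      apply Av_mono
      intro i
      have n1 := hg0 (2 * i)
      have n2 := hg0 (2 * i + (t : ZMod N))
      have n3 := ind_nonneg (B (2 * i) ∧ B (2 * (i + (t : ZMod N))) ∧
        E (Z (2 * i)) (Z (2 * (i + (t : ZMod N)))))
      have e2 : 2 * (i + (t : ZMod N)) = 2 * i + (t : ZMod N) + (t : ZMod N) := by ring
      by_cases hP : B (2 * i) ∧ B (2 * i + (t : ZMod N)) ∧ B (2 * (i + (t : ZMod N)))
      · rw [ind_of hP]
        obtain ⟨b1, b2, b3⟩ := hP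
        rcases hE (Z (2 * i)) (Z (2 * i + (t : ZMod N))) (Z (2 * (i + (t : ZMod N)))) with e | e | e
        · have e3 : g (2 * i) = 1 := by
            rw [hg]
            exact ind_of ⟨b1, b2, e⟩
          linarith
        · have e3 : g (2 * i + (t : ZMod N)) = 1 := by
            rw [hg]
            apply ind_of
            rw [← e2]
            exact ⟨b2, b3, e⟩
          linarith
        · rw [ind_of (P := B (2 * i) ∧ B (2 * (i + (t : ZMod N))) ∧
            E (Z (2 * i)) (Z (2 * (i + (t : ZMod N))))) ⟨b1, b3, e⟩] at n3 ⊢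
          linarith
      · rw [ind_not hP]
        linarith
    have h4 : Av (fun i => ind (B i ∧ B (i + (t : ZMod N)) ∧ E (Z i) (Z (i + (t : ZMod N))))) = Av g := by
      rw [hg]
    rw [h4]
    linarith
  have e1 : Av (fun i => avW W T (fun y => ind (B i ∧ B y ∧ E (Z i) (Z y))) (i + (h : ZMod N))) =
      (∑ r ∈ range T, Av (fun i => ind (B i ∧ B (i + (h : ZMod N) + ((W * r : ℕ) : ZMod N)) ∧
        E (Z i) (Z (i + (h : ZMod N) + ((W * r : ℕ) : ZMod N)))))) / T := by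
    unfold avW
    simp only [div_eq_mul_inv]
    rw [Av_mul_const, Av_sum]
  have e2 : Av (fun i => avW W T (fun y => ind (B (2 * i) ∧ B (2 * y) ∧ E (Z (2 * i)) (Z (2 * y))))
      (i + (h : ZMod N))) =
      (∑ r ∈ range T, Av (fun i => ind (B (2 * i) ∧ B (2 * (i + (h : ZMod N) + ((W * r : ℕ) : ZMod N))) ∧
        E (Z (2 * i)) (Z (2 * (i + (h : ZMod N) + ((W * r : ℕ) : ZMod N))))))) / T := by
    unfold avW
    simp only [div_eq_mul_inv]
    rw [Av_mul_const, Av_sum]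
  have h5 : (T : ℝ) * (1 / b) ≤ 4 * ∑ r ∈ range T, Av (fun i => ind (B i ∧
        B (i + (h : ZMod N) + ((W * r : ℕ) : ZMod N)) ∧
        E (Z i) (Z (i + (h : ZMod N) + ((W * r : ℕ) : ZMod N))))) +
      ∑ r ∈ range T, Av (fun i => ind (B (2 * i) ∧ B (2 * (i + (h : ZMod N) + ((W * r : ℕ) : ZMod N))) ∧
        E (Z (2 * i)) (Z (2 * (i + (h : ZMod N) + ((W * r : ℕ) : ZMod N)))))) := by
    rw [Finset.mul_sum, ← Finset.sum_add_distrib]
    have h6 := Finset.card_nsmul_le_sum (range T) _ (1 / (b : ℝ)) (fun r _ => hr r)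
    rw [card_range, nsmul_eq_mul] at h6
    exact h6
  rw [e1, e2, ← mul_div_assoc, ← add_div, le_div_iff₀ hT0, mul_comm]
  exact h5

theorem evenR (q : ℕ) [NeZero q] (a : ℤ) (ha : Even a) (b : ℕ) (hb : 0 < b) :
    ∃ (K0 Pi : ℕ) (ε0 : ℝ), 0 < Pi ∧ b ∣ Pi ∧ 0 < ε0 ∧ ∀ (N : ℕ) [NeZero N], Pi ∣ N →
      ∀ (Z : ZMod N → ZMod q) (B : ZMod N → Prop), (∀ i, B (i + (b : ZMod N)) ↔ B i) →
      (∀ h : ℕ, h.Coprime b → ∃ i : ZMod N, B (2 * i) ∧ B (2 * i + (h : ZMod N)) ∧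
        B (2 * (i + (h : ZMod N)))) →
      ε0 ≤ Av (fun i : ZMod N => ind (∃ k : ℕ, k ≤ K0 ∧ Squarefree k ∧
        (∀ p ∈ k.primeFactors, p % 4 = 1 ∧ ¬ p ∣ b) ∧ Dv (fun _ => 0) k i ∧
        ((B i ∧ B (i + (k : ZMod N)) ∧
          Z i + Z (i + (k : ZMod N)) - 2 * (k.primeFactors.card : ZMod q) = a) ∨
        (B (2 * i) ∧ B (2 * (i + (k : ZMod N))) ∧
          Z (2 * i) + Z (2 * (i + (k : ZMod N))) - 2 * (k.primeFactors.card : ZMod q) = a)))) := by
  classical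
  obtain ⟨s, hs⟩ : ∃ s : ℕ, s = Fintype.card ((ZMod q × Bool) × (ZMod q × Bool)) := ⟨_, rfl⟩
  have hs0 : 0 < s := by
    rw [hs]
    exact Fintype.card_pos
  have hsR : (0 : ℝ) < s := by exact_mod_cast hs0
  have hbR : (0 : ℝ) < b := by exact_mod_cast hb
  obtain ⟨K0, Pi, ε0, hPi, hbPi, hε, hmain⟩ := thmSL (Lb := (ZMod q × Bool) × (ZMod q × Bool)) q
    (fun c c' m => (c.1.2 = true ∧ c'.1.2 = true ∧ c.1.1 + c'.1.1 - 2 * m = a) ∨
      (c.2.2 = true ∧ c'.2.2 = true ∧ c.2.1 + c'.2.1 - 2 * m = a)) b hb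
    (1 / (6 * b * (s : ℝ) ^ 2)) (by positivity)
  refine ⟨K0, Pi, ε0, hPi, hbPi, hε, ?_⟩
  intro N _ hPN Z B hB hex
  by_contra hlt
  rw [not_le] at hlt
  obtain ⟨X, hX⟩ : ∃ X : ZMod N → (ZMod q × Bool) × (ZMod q × Bool),
    X = fun i => ((Z i, decide (B i)), (Z (2 * i), decide (B (2 * i)))) := ⟨_, rfl⟩
  obtain ⟨W, T, n, hW, hT, hbW, hcard, hbn, hcc⟩ := hmain N hPN X
    X (fun _ => True) (fun _ => True) (fun _ => 0) (by
      refine lt_of_le_of_lt (Av_mono fun i => ind_mono ?_) hlt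
      rintro ⟨-, k, h1, h2, h3, h4, -, h5⟩
      rw [hX] at h5
      simp only [decide_eq_true_eq] at h5
      exact ⟨k, h1, h2, h3, h4, h5⟩)
  have hPPR : (0 : ℝ) < (PP n).card := by exact_mod_cast hcard
  have h1 := rel_sum X (fun c c' => c.1.2 = true ∧ c'.1.2 = true ∧ Ev q a c.1.1 c'.1.1) W T n
    (1 / (6 * b * (s : ℝ) ^ 2)) (by positivity)
    (fun c c' ⟨f1, f2, ⟨j, hj⟩⟩ => hcc c c' ⟨j, Or.inl ⟨f1, f2, hj⟩⟩)
  have h2 := rel_sum X (fun c c' => c.2.2 = true ∧ c'.2.2 = true ∧ Ev q a c.2.1 c'.2.1) W T n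
    (1 / (6 * b * (s : ℝ) ^ 2)) (by positivity)
    (fun c c' ⟨f1, f2, ⟨j, hj⟩⟩ => hcc c c' ⟨j, Or.inr ⟨f1, f2, hj⟩⟩)
  rw [← hs] at h1 h2
  have h3 : (s : ℝ) ^ 2 * (1 / (6 * b * (s : ℝ) ^ 2)) * (PP n).card = (PP n).card / (6 * b) := by
    field_simp
  rw [h3] at h1 h2
  rw [hX] at h1 h2
  simp only [decide_eq_true_eq] at h1 h2
  have h4 : ∀ p ∈ PP n, 1 / (b : ℝ) ≤
      4 * Av (fun i => avW W T (fun y => ind (B i ∧ B y ∧ Ev q a (Z i) (Z y)))
        (i + ((p % W : ℕ) : ZMod N))) +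
      Av (fun i => avW W T (fun y => ind (B (2 * i) ∧ B (2 * y) ∧ Ev q a (Z (2 * i)) (Z (2 * y))))
        (i + ((p % W : ℕ) : ZMod N))) := by
    intro p hp
    have hpp : p.Prime ∧ 2 ^ n ≤ p := by
      unfold PP at hp
      rw [mem_filter, mem_Ico] at hp
      exact ⟨hp.2.1, hp.1.1⟩
    have hcop : (p % W).Coprime b := by
      have g1 : p.Coprime b := (Nat.Prime.coprime_iff_not_dvd hpp.1).mpr
        (fun h => absurd (Nat.le_of_dvd hb h) (by omega))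
      have g2 : Nat.gcd (p % W) b = Nat.gcd p b := by
        have g3 : p % W ≡ p [MOD b] := (Nat.mod_modEq p W).of_dvd hbW
        exact g3.gcd_eq
      unfold Nat.Coprime
      rw [g2]
      exact g1
    exact one_leR (Ev q a) (ev_three q a ha) Z B b W T (p % W) hb (hbPi.trans hPN) hbW hT hB hex hcop
  have h5 := Finset.card_nsmul_le_sum (PP n) _ (1 / (b : ℝ)) h4
  rw [nsmul_eq_mul, Finset.sum_add_distrib, ← Finset.mul_sum] at h5
  have h6 : ((PP n).card : ℝ) * (1 / b) ≤ 4 * ((PP n).card / (6 * b)) + (PP n).card / (6 * b) := by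
    refine h5.trans (add_le_add (mul_le_mul_of_nonneg_left h1 (by norm_num)) h2)
  have h7 : 4 * (((PP n).card : ℝ) / (6 * b)) + (PP n).card / (6 * b) =
      5 / 6 * ((PP n).card * (1 / b)) := by
    field_simp
    ring
  rw [h7] at h6
  have h8 : (0 : ℝ) < (PP n).card * (1 / b) := by positivity
  linarith

end Pool.Agent.OmEv
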